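import Mathlib

open Finset SimpleGraph

namespace Pool.Agent.Helper35.Boot

universe v

variable {W : Type v}

lemma ex_le_choose (m : ℕ) (F : SimpleGraph W) : extremalNumber m F ≤ m.choose 2 := by
  classical
  rw [← Fintype.card_fin m, extremalNumber_le_iff]
  intro G _ _
  have := G.card_edgeFinset_le_card_choose_two
  simpa using this

/-- the number of edges does not depend on the `Fintype` instance. -/
lemma card_edgeFinset_inst {V : Type*} (G : SimpleGraph V) (i j : Fintype G.edgeSet) :
    #(@SimpleGraph.edgeFinset V G i) = #(@SimpleGraph.edgeFinset V G j) := by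
  have : i = j := Subsingleton.elim i j
  rw [this]

open scoped Classical in
/-- an `F`-free graph realising the extremal number, as soon as there is one `F`-free graph. -/
lemma exists_extremal {m : ℕ} {F : SimpleGraph W} (h : 0 < extremalNumber m F) :
    ∃ G : SimpleGraph (Fin m), F.Free G ∧ #G.edgeFinset = extremalNumber m F := by
  have h1 : extremalNumber m F - 1 < extremalNumber (Fintype.card (Fin m)) F := by
    rw [Fintype.card_fin]
    omega
  rw [lt_extremalNumber_iff] at h1
  obtain ⟨G, _, hG, hlt⟩ := h1
  refine ⟨G, hG, le_antisymm ?_ ?_⟩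
  · have := card_edgeFinset_le_extremalNumber hG
    rw [Fintype.card_fin] at this
    exact (card_edgeFinset_inst G _ _).trans_le this
  · have : extremalNumber m F ≤ #G.edgeFinset := by omega
    exact this.trans_eq (card_edgeFinset_inst G _ _)

open scoped Classical in
lemma le_ex {m : ℕ} {F : SimpleGraph W} (G : SimpleGraph (Fin m)) (h : F.Free G) :
    #G.edgeFinset ≤ extremalNumber m F := by
  have := card_edgeFinset_le_extremalNumber h
  rwa [Fintype.card_fin] at this

/-- Monotonicity of the extremal number, once there are enough vertices. -/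
lemma ex_mono [Fintype W] {F : SimpleGraph W} {m N : ℕ} (h : Fintype.card W ≤ m) (hmN : m ≤ N) :
    extremalNumber m F ≤ extremalNumber N F := by
  classical
  rcases Nat.eq_zero_or_pos (extremalNumber m F) with h0 | h0
  · omega
  obtain ⟨G, hG, hcard⟩ := exists_extremal h0
  set f : Fin m ↪ Fin N := ⟨Fin.castLE hmN, Fin.castLE_injective hmN⟩ with hf
  have hfree : F.Free (G.map f) := by
    rintro ⟨φ⟩
    apply hG
    -- the non-isolated vertices
    set s : Set W := {w | ∃ w', F.Adj w w'} with hs
    have hr : ∀ w ∈ s, ∃ x : Fin m, f x = φ w := by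
      rintro w ⟨w', hw⟩
      have h1 : (G.map f).Adj (φ w) (φ w') := φ.toHom.map_adj hw
      rw [SimpleGraph.map_adj] at h1
      obtain ⟨x, y, -, hx, -⟩ := h1
      exact ⟨x, hx⟩
    have hchoice : ∀ w : W, ∃ x : Fin m, w ∈ s → f x = φ w := by
      intro w
      by_cases hw : w ∈ s
      · obtain ⟨x, hx⟩ := hr w hw
        exact ⟨x, fun _ => hx⟩
      · have : 0 < m := by
          have : 0 < Fintype.card W := Fintype.card_pos_iff.mpr ⟨w⟩
          omega
        exact ⟨⟨0, this⟩, fun h => absurd h hw⟩
    choose ψ hψ using hchoice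
    have hinj : Set.InjOn ψ s := by
      intro a ha b hb hab
      apply φ.injective
      change φ a = φ b
      rw [← hψ a ha, ← hψ b hb, hab]
    obtain ⟨t, ht1, -, ht2⟩ := Finset.exists_subsuperset_card_eq
      (Finset.subset_univ (Finset.univ.filter (fun x => ∃ w ∈ s, ψ w = x)))
      (n := Fintype.card W) (by
        have : Finset.univ.filter (fun x => ∃ w ∈ s, ψ w = x) ⊆
            Finset.image ψ (Finset.univ : Finset W) := by
          intro x hx
          simp only [Finset.mem_filter, Finset.mem_univ, true_and] at hx
          obtain ⟨w, -, hw⟩ := hx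
          exact Finset.mem_image.mpr ⟨w, Finset.mem_univ w, hw⟩
        exact (Finset.card_le_card this).trans (Finset.card_image_le.trans (by simp)))
      (by simpa using h)
    obtain ⟨g, hg⟩ := Set.MapsTo.exists_equiv_extend_of_card_eq (s := s) (f := ψ) ht2.symm
      (by
        intro w hw
        apply ht1
        simp only [Finset.mem_filter, Finset.mem_univ, true_and]
        exact ⟨w, hw, rfl⟩) hinj
    refine ⟨⟨⟨fun w => (g w).1, ?_⟩, ?_⟩⟩
    · intro a b hab
      have ha : a ∈ s := ⟨b, hab⟩
      have hb : b ∈ s := ⟨a, hab.symm⟩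
      rw [hg a ha, hg b hb]
      have h1 : (G.map f).Adj (φ a) (φ b) := φ.toHom.map_adj hab
      rw [← hψ a ha, ← hψ b hb, SimpleGraph.map_adj_apply] at h1
      exact h1
    · exact Subtype.val_injective.comp g.injective
  have h3 : #(G.map f).edgeFinset = #G.edgeFinset :=
    ((card_edgeFinset_inst _ _ _).trans (SimpleGraph.card_edgeFinset_map f G)).trans
      (card_edgeFinset_inst _ _ _)
  have h4 : extremalNumber m F = #(G.map f).edgeFinset := by
    rw [← hcard]
    exact ((card_edgeFinset_inst _ _ _).trans h3.symm)
  rw [h4]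
  exact (card_edgeFinset_inst _ _ _).trans_le (le_ex _ hfree)

/-- Superadditivity for connected forbidden graphs. -/
lemma ex_super {F : SimpleGraph W} (hF : F.Preconnected) (a b : ℕ) :
    extremalNumber a F + extremalNumber b F ≤ extremalNumber (a + b) F := by
  classical
  by_cases hW : IsEmpty W
  · have h0 : ∀ m, extremalNumber m F = 0 := by
      intro m
      by_contra hne
      obtain ⟨G, hG, -⟩ := exists_extremal (Nat.pos_of_ne_zero hne)
      exact hG .of_isEmpty
    simp [h0]
  rw [not_isEmpty_iff] at hW
  obtain ⟨w₀⟩ := hW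
  -- extremal graphs; `⊥` is used if there is no `F`-free graph with an edge
  have key : ∀ m, ∃ G : SimpleGraph (Fin m), (F.Free G ∨ G = ⊥) ∧
      #G.edgeFinset = extremalNumber m F := by
    intro m
    rcases Nat.eq_zero_or_pos (extremalNumber m F) with h0 | h0
    · exact ⟨⊥, Or.inr rfl, by simp [h0]⟩
    · obtain ⟨G, hG, h⟩ := exists_extremal h0
      exact ⟨G, Or.inl hG, h⟩
  by_cases hFbot : F = ⊥
  · -- then `F` has one vertex
    have h0 : ∀ m, extremalNumber m F = 0 := by
      intro m
      by_contra hne
      obtain ⟨G, hG, hc⟩ := exists_extremal (Nat.pos_of_ne_zero hne)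
      have hsub : ∀ w, w = w₀ := by
        intro w
        by_contra hw
        obtain ⟨p⟩ := hF w w₀
        cases p with
        | nil => exact hw rfl
        | cons h _ => rw [hFbot] at h; exact h
      have hm : 0 < m := by
        by_contra hm
        have : m = 0 := by omega
        subst this
        have h4 := ex_le_choose 0 F
        simp at h4
        exact hne h4
      apply hG
      refine ⟨⟨⟨fun _ => ⟨0, hm⟩, ?_⟩, ?_⟩⟩
      · intro x y hxy
        rw [hFbot] at hxy
        exact absurd hxy (by simp)
      · intro x y _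
        rw [hsub x, hsub y]
    simp [h0]
  obtain ⟨G₁, h₁, c₁⟩ := key a
  obtain ⟨G₂, h₂, c₂⟩ := key b
  replace h₁ : F.Free G₁ := by
    rcases h₁ with h | rfl
    · exact h
    · exact free_bot hFbot
  replace h₂ : F.Free G₂ := by
    rcases h₂ with h | rfl
    · exact h
    · exact free_bot hFbot
  have hfree : F.Free (G₁ ⊕g G₂) := by
    rintro ⟨φ⟩
    -- the side is constant
    have hside : ∀ x y, F.Adj x y → ((φ x).isLeft ↔ (φ y).isLeft) := by
      intro x y hxy
      have h1 : (G₁ ⊕g G₂).Adj (φ x) (φ y) := φ.toHom.map_adj hxy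
      rcases hx : φ x with u | u <;> rcases hy : φ y with v | v <;> rw [hx, hy] at h1 <;>
        simp_all
    have hside2 : ∀ x y, F.Reachable x y → ((φ x).isLeft ↔ (φ y).isLeft) := by
      rintro x y ⟨p⟩
      induction p with
      | nil => exact Iff.rfl
      | cons h _ ih => exact (hside _ _ h).trans ih
    by_cases hl : (φ w₀).isLeft
    · apply h₁
      have hall : ∀ w, ∃ u, φ w = Sum.inl u := by
        intro w
        have := (hside2 w w₀ (hF w w₀)).mpr hl
        exact Sum.isLeft_iff.mp this
      choose g hg using hall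
      refine ⟨⟨⟨g, ?_⟩, ?_⟩⟩
      · intro x y hxy
        have h1 : (G₁ ⊕g G₂).Adj (φ x) (φ y) := φ.toHom.map_adj hxy
        rw [hg, hg] at h1
        simpa using h1
      · intro x y hxy
        apply φ.injective
        change φ x = φ y
        have hxy' : g x = g y := hxy
        rw [hg, hg, hxy']
    · apply h₂
      have hall : ∀ w, ∃ u, φ w = Sum.inr u := by
        intro w
        have : ¬ (φ w).isLeft := fun h => hl ((hside2 w w₀ (hF w w₀)).mp h)
        rcases h : φ w with u | u
        · rw [h] at this
          simp at this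
        · exact ⟨u, rfl⟩
      choose g hg using hall
      refine ⟨⟨⟨g, ?_⟩, ?_⟩⟩
      · intro x y hxy
        have h1 : (G₁ ⊕g G₂).Adj (φ x) (φ y) := φ.toHom.map_adj hxy
        rw [hg, hg] at h1
        simpa using h1
      · intro x y hxy
        apply φ.injective
        change φ x = φ y
        have hxy' : g x = g y := hxy
        rw [hg, hg, hxy']
  have h3 := card_edgeFinset_le_extremalNumber hfree
  have h4 : #(G₁ ⊕g G₂).edgeFinset = #G₁.edgeFinset + #G₂.edgeFinset := by
    rw [← SimpleGraph.card_edgeSet, ← SimpleGraph.card_edgeSet, ← SimpleGraph.card_edgeSet,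
      ← Fintype.card_sum]
    exact Fintype.card_congr edgeSetSumEquiv
  rw [h4, c₁, c₂] at h3
  simpa using h3

lemma ex_super_mul {F : SimpleGraph W} (hF : F.Preconnected) (k m N : ℕ) (h : k * m ≤ N) :
    k * extremalNumber m F ≤ extremalNumber N F := by
  have h1 : ∀ k, k * extremalNumber m F ≤ extremalNumber (k * m) F := by
    intro k
    induction k with
    | zero => simp
    | succ k ih =>
      have := ex_super hF (k * m) m
      rw [Nat.succ_mul, Nat.succ_mul]
      omega
  have h2 := ex_super hF (k * m) (N - k * m)
  rw [Nat.add_sub_cancel' h] at h2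
  have := h1 k
  omega

end Pool.Agent.Helper35.Boot
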