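import Mathlib

open Finset

namespace Pool.Agent.Helper35.Boot

lemma good_times (M : ℕ) (w : ℕ → ℕ) (hpos : ∀ σ, 1 ≤ σ → σ ≤ M → 1 ≤ w σ)
    (h0 : w 0 = 0) (hM : w (M + 1) = 0) :
    M ≤ ∑ σ ∈ (Finset.Icc 1 M).filter (fun σ => w (σ - 1) ≤ 2 * w σ ∧ w (σ + 1) ≤ 2 * w σ),
      (2 * Nat.log 2 (w σ) + 1) := by
  set Gd := (Finset.Icc 1 M).filter (fun σ => w (σ - 1) ≤ 2 * w σ ∧ w (σ + 1) ≤ 2 * w σ)
    with hGd
  have key : ∀ τ ∈ Finset.Icc 1 M, ∃ σ ∈ Gd,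
      τ ∈ Finset.Icc (σ - Nat.log 2 (w σ)) (σ + Nat.log 2 (w σ)) := by
    intro τ hτ
    obtain ⟨σ, hσ, hmax⟩ := Finset.exists_max_image (Finset.Icc 1 M)
      (fun σ => (w σ : ℝ) * (1 / 2) ^ ((σ - τ) + (τ - σ))) ⟨τ, hτ⟩
    rw [Finset.mem_Icc] at hτ hσ
    set d := (σ - τ) + (τ - σ) with hd
    have hpd : (0 : ℝ) < (1 / 2) ^ d := by positivity
    have hnb : ∀ σ', 1 ≤ σ' → σ' ≤ M → (σ' - τ) + (τ - σ') ≤ d + 1 → w σ' ≤ 2 * w σ := by
      intro σ' h1 h2 h3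
      have h4 := hmax σ' (Finset.mem_Icc.mpr ⟨h1, h2⟩)
      have h5 : ((1 : ℝ) / 2) ^ (d + 1) ≤ (1 / 2) ^ ((σ' - τ) + (τ - σ')) :=
        pow_le_pow_of_le_one (by norm_num) (by norm_num) h3
      have h6 : (w σ' : ℝ) * (1 / 2) ^ (d + 1) ≤ w σ * (1 / 2) ^ d :=
        (mul_le_mul_of_nonneg_left h5 (Nat.cast_nonneg _)).trans h4
      rw [pow_succ] at h6
      have h7 : (w σ' : ℝ) ≤ 2 * w σ := by
        have : (1 / 2 : ℝ) ^ d * (w σ') ≤ (1 / 2) ^ d * (2 * w σ) := by nlinarith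
        exact le_of_mul_le_mul_left this hpd
      exact_mod_cast h7
    refine ⟨σ, ?_, ?_⟩
    · rw [hGd, Finset.mem_filter, Finset.mem_Icc]
      refine ⟨hσ, ?_, ?_⟩
      · rcases Nat.eq_or_lt_of_le hσ.1 with h | h
        · rw [← h]; simp [h0]
        · exact hnb (σ - 1) (by omega) (by omega) (by omega)
      · rcases Nat.eq_or_lt_of_le hσ.2 with h | h
        · rw [h, hM]; omega
        · exact hnb (σ + 1) (by omega) (by omega) (by omega)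
    · have h1 := hmax τ (Finset.mem_Icc.mpr hτ)
      simp only [Nat.sub_self, Nat.add_zero, pow_zero, mul_one] at h1
      have h2 : (1 : ℝ) ≤ w τ := by exact_mod_cast hpos τ hτ.1 hτ.2
      have h3 : (1 : ℝ) ≤ w σ * (1 / 2) ^ d := h2.trans h1
      have h4 : (2 : ℝ) ^ d ≤ w σ := by
        have : (w σ : ℝ) * (1 / 2) ^ d = w σ / 2 ^ d := by
          rw [one_div, inv_pow]; rfl
        rw [this, le_div_iff₀ (by positivity), one_mul] at h3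
        exact h3
      have h5 : 2 ^ d ≤ w σ := by exact_mod_cast h4
      have h6 : d ≤ Nat.log 2 (w σ) := Nat.le_log_of_pow_le (by norm_num) h5
      rw [Finset.mem_Icc]
      omega
  have hsub : Finset.Icc 1 M ⊆
      Gd.biUnion (fun σ => Finset.Icc (σ - Nat.log 2 (w σ)) (σ + Nat.log 2 (w σ))) := by
    intro τ hτ
    obtain ⟨σ, hσ, h⟩ := key τ hτ
    exact Finset.mem_biUnion.mpr ⟨σ, hσ, h⟩
  have h1 := Finset.card_le_card hsub
  rw [Nat.card_Icc] at h1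
  have h2 : M ≤ #(Gd.biUnion (fun σ => Finset.Icc (σ - Nat.log 2 (w σ))
    (σ + Nat.log 2 (w σ)))) := by omega
  refine h2.trans (Finset.card_biUnion_le.trans ?_)
  apply Finset.sum_le_sum
  intro σ _
  rw [Nat.card_Icc]
  omega

/-- grouping the good times by scale and parity. -/
lemma group_scales (Gd : Finset ℕ) (w : ℕ → ℕ) (L : ℕ) (hL : ∀ σ ∈ Gd, Nat.log 2 (w σ) ≤ L)
    (b : ℕ → ℝ)
    (hb : ∀ i ≤ L, ∀ r : ℕ,
      (#(Gd.filter (fun σ => Nat.log 2 (w σ) = i ∧ σ % 2 = r)) : ℝ) ≤ b i) :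
    ((∑ σ ∈ Gd, (2 * Nat.log 2 (w σ) + 1) : ℕ) : ℝ) ≤
      ∑ i ∈ Finset.range (L + 1), (2 * (i : ℝ) + 1) * (2 * b i) := by
  have h1 : ∑ σ ∈ Gd, (2 * Nat.log 2 (w σ) + 1) =
      ∑ i ∈ Finset.range (L + 1), ∑ σ ∈ Gd.filter (fun σ => Nat.log 2 (w σ) = i),
        (2 * Nat.log 2 (w σ) + 1) := by
    rw [Finset.sum_fiberwise_of_maps_to]
    intro σ hσ
    rw [Finset.mem_range]
    have := hL σ hσ
    omega
  rw [h1]
  push_cast
  apply Finset.sum_le_sum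
  intro i hi
  rw [Finset.mem_range] at hi
  have h2 : ∑ σ ∈ Gd.filter (fun σ => Nat.log 2 (w σ) = i), (2 * (Nat.log 2 (w σ) : ℝ) + 1) =
      (2 * (i : ℝ) + 1) * #(Gd.filter (fun σ => Nat.log 2 (w σ) = i)) := by
    rw [Finset.sum_congr rfl (g := fun _ => (2 * (i : ℝ) + 1))]
    · rw [Finset.sum_const, nsmul_eq_mul, mul_comm]
    · intro σ hσ
      rw [(Finset.mem_filter.mp hσ).2]
  rw [h2]
  apply mul_le_mul_of_nonneg_left _ (by positivity)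
  have h3 : Gd.filter (fun σ => Nat.log 2 (w σ) = i) ⊆
      Gd.filter (fun σ => Nat.log 2 (w σ) = i ∧ σ % 2 = 0) ∪
      Gd.filter (fun σ => Nat.log 2 (w σ) = i ∧ σ % 2 = 1) := by
    intro σ hσ
    rw [Finset.mem_filter] at hσ
    rw [Finset.mem_union, Finset.mem_filter, Finset.mem_filter]
    rcases Nat.mod_two_eq_zero_or_one σ with h | h
    · exact Or.inl ⟨hσ.1, hσ.2, h⟩
    · exact Or.inr ⟨hσ.1, hσ.2, h⟩
  have h4 := (Finset.card_le_card h3).trans (Finset.card_union_le _ _)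
  have h5 : (#(Gd.filter (fun σ => Nat.log 2 (w σ) = i)) : ℝ) ≤
      #(Gd.filter (fun σ => Nat.log 2 (w σ) = i ∧ σ % 2 = 0)) +
      #(Gd.filter (fun σ => Nat.log 2 (w σ) = i ∧ σ % 2 = 1)) := by exact_mod_cast h4
  have h6 := hb i (by omega) 0
  have h7 := hb i (by omega) 1
  linarith

end Pool.Agent.Helper35.Boot
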