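import Pool.Agent.Helper35.Boot.Main

/-!
# The general bound with an edge for every dyadic scale
-/

open Finset SimpleGraph

namespace Pool.Agent.Helper35.Boot

universe u v

variable {V : Type u} {W : Type v}

open scoped Classical in
lemma runTime_bound_multi [Fintype V] [Fintype W] (H : SimpleGraph W) (G : SimpleGraph V)
    (e : ℕ → Sym2 W) (he : ∀ i, e i ∈ H.edgeSet)
    (h2 : ∀ i, ∃ g₁ ∈ (H.deleteEdges {e i}).edgeSet, ∃ g₂ ∈ (H.deleteEdges {e i}).edgeSet,
      g₁ ≠ g₂) :
    (runTime H G : ℝ) ≤ ∑ i ∈ Finset.range (Nat.log 2 (Fintype.card V) + 1),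
      (2 * (i : ℝ) + 1) * (2 * ((80 * (20 * ((Fintype.card W : ℝ) ^ 2 + 1) + 2)) * 2 ^ i *
        extremalNumber (Fintype.card V / 2 ^ i + 1) (H.deleteEdges {e i}))) := by
  rcases isEmpty_or_nonempty V with hV | hV
  · rw [runTime_eq_zero]
    push_cast
    positivity
  set n := Fintype.card V with hn
  have hn0 : n ≠ 0 := Fintype.card_ne_zero
  set w : ℕ → ℕ := fun σ => #(VE H G σ) with hw
  have hwn : ∀ σ, w σ ≤ n := fun σ => Finset.card_le_univ _
  have hemp : ∀ σ, E H G σ = ∅ → w σ = 0 := by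
    intro σ h
    rw [hw]
    simp only [Finset.card_eq_zero]
    ext x
    simp [mem_VE, h]
  have h0 : w 0 = 0 := hemp 0 E_zero
  have hM : w (runTime H G + 1) = 0 := hemp _ (E_eq_empty (Nat.lt_succ_self _))
  have hpos : ∀ σ, 1 ≤ σ → σ ≤ runTime H G → 1 ≤ w σ := by
    intro σ h1 h3
    obtain ⟨z, hz⟩ := E_nonempty h1 h3
    apply Finset.card_pos.mpr
    induction z using Sym2.ind with
    | _ a b => exact ⟨a, mem_VE.mpr ⟨_, hz, Sym2.mem_mk_left a b⟩⟩
  have h3 := good_times (runTime H G) w hpos h0 hM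
  set Gd := (Finset.Icc 1 (runTime H G)).filter
    (fun σ => w (σ - 1) ≤ 2 * w σ ∧ w (σ + 1) ≤ 2 * w σ) with hGd
  have h4 := group_scales Gd w (Nat.log 2 n) (fun σ _ => Nat.log_mono_right (hwn σ))
    (fun i => (80 * (20 * ((Fintype.card W : ℝ) ^ 2 + 1) + 2)) * 2 ^ i *
        extremalNumber (n / 2 ^ i + 1) (H.deleteEdges {e i})) (by
      intro i hi r
      apply scale_bound (e i) (he i) (h2 i)
      · intro σ hσ τ hτ hlt
        rw [Finset.mem_filter] at hσ hτ
        omega
      · exact Nat.pow_le_of_le_log hn0 hi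
      · intro σ hσ
        rw [Finset.mem_filter, hGd, Finset.mem_filter, Finset.mem_Icc] at hσ
        rw [← hσ.2.1]
        apply Nat.pow_log_le_self
        have := hpos σ hσ.1.1.1 hσ.1.1.2
        omega
      · intro σ hσ
        rw [Finset.mem_filter, hGd, Finset.mem_filter, Finset.mem_Icc] at hσ
        have h5 : w σ < 2 ^ (i + 1) := by
          have := Nat.lt_pow_succ_log_self (b := 2) (by norm_num) (w σ)
          rw [hσ.2.1] at this
          exact this
        have h6 : #(VW H G σ) ≤ w (σ - 1) + w σ + w (σ + 1) := by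
          rw [VW]
          exact (Finset.card_union_le _ _).trans
            (Nat.add_le_add_right (Finset.card_union_le _ _) _)
        have h7 := hσ.1.2.1
        have h8 := hσ.1.2.2
        rw [pow_succ] at h5
        omega)
  refine le_trans ?_ h4
  exact_mod_cast h3

/-- The general bound, with an edge `e i` for every scale `i`. -/
theorem general_bound_multi [Finite W] (H : SimpleGraph W) (hH : 3 ≤ H.edgeSet.ncard) :
    ∃ C : ℝ, 0 ≤ C ∧ ∀ (n : ℕ) (e : ℕ → Sym2 W), (∀ i, e i ∈ H.edgeSet) →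
      (maxRunTime H n : ℝ) ≤
      C * ∑ i ∈ Finset.range (Nat.log 2 n + 1), ((i : ℝ) + 1) * 2 ^ i *
        extremalNumber (n / 2 ^ i + 1) (H.deleteEdges {e i}) := by
  classical
  have := Fintype.ofFinite W
  refine ⟨4 * (80 * (20 * ((Fintype.card W : ℝ) ^ 2 + 1) + 2)), by positivity,
    fun n e he => ?_⟩
  have h2 := fun i => two_edges hH (e i) (he i)
  have h3 : ∀ G : SimpleGraph (Fin n), (runTime H G : ℝ) ≤
      4 * (80 * (20 * ((Fintype.card W : ℝ) ^ 2 + 1) + 2)) *
      ∑ i ∈ Finset.range (Nat.log 2 n + 1), ((i : ℝ) + 1) * 2 ^ i *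
        extremalNumber (n / 2 ^ i + 1) (H.deleteEdges {e i}) := by
    intro G
    have h4 := runTime_bound_multi H G e he h2
    rw [Fintype.card_fin] at h4
    refine h4.trans ?_
    rw [Finset.mul_sum]
    apply Finset.sum_le_sum
    intro i _
    have h5 : (0 : ℝ) ≤ (80 * (20 * ((Fintype.card W : ℝ) ^ 2 + 1) + 2)) * 2 ^ i *
        extremalNumber (n / 2 ^ i + 1) (H.deleteEdges {e i}) := by positivity
    calc _ ≤ (2 * (i : ℝ) + 2) * (2 * ((80 * (20 * ((Fintype.card W : ℝ) ^ 2 + 1) + 2)) * 2 ^ i *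
        extremalNumber (n / 2 ^ i + 1) (H.deleteEdges {e i}))) := by
          apply mul_le_mul_of_nonneg_right _ (by positivity)
          linarith
      _ = _ := by ring
  have h4 : ∃ G : SimpleGraph (Fin n), runTime H G = maxRunTime H n := by
    obtain ⟨G, -, hG⟩ := Finset.exists_mem_eq_sup (Finset.univ : Finset (SimpleGraph (Fin n)))
      ⟨⊥, Finset.mem_univ _⟩ (runTime H)
    refine ⟨G, ?_⟩
    rw [maxRunTime, ← hG]
  obtain ⟨G, hG⟩ := h4
  rw [← hG]
  exact h3 G

end Pool.Agent.Helper35.Boot
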