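import Pool.Agent.Helper35.Boot.Turan2

open Finset SimpleGraph

namespace Pool.Agent.Helper35.Boot

universe v

variable {W : Type v}

/-- the matching `{01, 23, 45, …}`. -/
def matchGraph (n : ℕ) : SimpleGraph (Fin n) where
  Adj a b := a ≠ b ∧ a.1 / 2 = b.1 / 2
  symm := ⟨fun _ _ h => ⟨h.1.symm, h.2.symm⟩⟩
  loopless := ⟨fun _ h => h.1 rfl⟩

/-- the star with centre `0`. -/
def starGraph' (n : ℕ) : SimpleGraph (Fin n) where
  Adj a b := a ≠ b ∧ (a.1 = 0 ∨ b.1 = 0)
  symm := ⟨fun _ _ h => ⟨h.1.symm, h.2.symm⟩⟩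
  loopless := ⟨fun _ h => h.1 rfl⟩

open scoped Classical in
lemma card_match (n : ℕ) : n / 2 ≤ #(matchGraph n).edgeFinset := by
  have : n / 2 = #(Finset.univ : Finset (Fin (n / 2))) := by simp
  conv_lhs => rw [this]
  apply Finset.card_le_card_of_injOn
    (fun i => s(⟨2 * i.1, by omega⟩, ⟨2 * i.1 + 1, by omega⟩))
  · intro i _
    rw [Finset.mem_coe, SimpleGraph.mem_edgeFinset, SimpleGraph.mem_edgeSet]
    refine ⟨?_, ?_⟩
    · intro h
      have := congrArg Fin.val h
      simp at this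
    · simp only
      omega
  · intro i _ j _ hij
    simp only [Sym2.eq_iff, Fin.mk.injEq] at hij
    apply Fin.ext
    omega

open scoped Classical in
lemma card_star (n : ℕ) : n - 1 ≤ #(starGraph' n).edgeFinset := by
  have : n - 1 = #(Finset.univ : Finset (Fin (n - 1))) := by simp
  conv_lhs => rw [this]
  apply Finset.card_le_card_of_injOn
    (fun i => s(⟨0, by have := i.2; omega⟩, ⟨i.1 + 1, by omega⟩))
  · intro i _
    rw [Finset.mem_coe, SimpleGraph.mem_edgeFinset, SimpleGraph.mem_edgeSet]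
    refine ⟨?_, ?_⟩
    · intro h
      have := congrArg Fin.val h
      simp at this
    · simp
  · intro i _ j _ hij
    simp only [Sym2.eq_iff, Fin.mk.injEq] at hij
    apply Fin.ext
    omega

/-- A graph with two edges has at least linear extremal number. -/
lemma le_three_ex {F : SimpleGraph W}
    (h2 : ∃ g₁ ∈ F.edgeSet, ∃ g₂ ∈ F.edgeSet, g₁ ≠ g₂) {n : ℕ} (hn : 2 ≤ n) :
    n ≤ 3 * extremalNumber n F := by
  classical
  by_cases hA : ∃ x y z : W, y ≠ z ∧ F.Adj x y ∧ F.Adj x z
  · obtain ⟨x, y, z, hyz, hxy, hxz⟩ := hA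
    have hfree : F.Free (matchGraph n) := by
      rintro ⟨φ⟩
      have h1 : (matchGraph n).Adj (φ x) (φ y) := φ.toHom.map_adj hxy
      have h3 : (matchGraph n).Adj (φ x) (φ z) := φ.toHom.map_adj hxz
      have h4 : φ y ≠ φ z := fun h => hyz (φ.injective h)
      have h5 : (φ y).1 ≠ (φ z).1 := fun h => h4 (Fin.ext h)
      have h6 : (φ x).1 ≠ (φ y).1 := fun h => h1.1 (Fin.ext h)
      have h7 : (φ x).1 ≠ (φ z).1 := fun h => h3.1 (Fin.ext h)
      have h8 := h1.2
      have h9 := h3.2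
      omega
    have h1 := le_ex _ hfree
    have h3 := card_match n
    have h4 : n / 2 ≤ extremalNumber n F := by
      refine h3.trans ?_
      convert! h1
    omega
  · obtain ⟨g₁, hg₁, g₂, hg₂, hne⟩ := h2
    have hfree : F.Free (starGraph' n) := by
      rintro ⟨φ⟩
      induction g₁ using Sym2.ind with
      | _ a b =>
      induction g₂ using Sym2.ind with
      | _ c d =>
      rw [SimpleGraph.mem_edgeSet] at hg₁ hg₂
      have h1 : (starGraph' n).Adj (φ a) (φ b) := φ.toHom.map_adj hg₁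
      have h3 : (starGraph' n).Adj (φ c) (φ d) := φ.toHom.map_adj hg₂
      have key : ∀ p q p' q' : W, F.Adj p q → F.Adj p' q' → s(p, q) ≠ s(p', q') →
          (φ p).1 = 0 → (φ p').1 = 0 → False := by
        intro p q p' q' hp hp' hn h h'
        have h4 : p = p' := φ.injective (Fin.ext (h.trans h'.symm))
        subst h4
        apply hA
        refine ⟨p, q, q', ?_, hp, hp'⟩
        intro h5
        apply hn
        rw [h5]
      rcases h1.2 with h | h <;> rcases h3.2 with h' | h'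
      · exact key a b c d hg₁ hg₂ hne h h'
      · exact key a b d c hg₁ hg₂.symm (by rwa [Sym2.eq_swap (a := d)]) h h'
      · exact key b a c d hg₁.symm hg₂ (by rwa [Sym2.eq_swap (a := b)]) h h'
      · exact key b a d c hg₁.symm hg₂.symm
          (by rwa [Sym2.eq_swap (a := b), Sym2.eq_swap (a := d)]) h h'
    have h1 := le_ex _ hfree
    have h3 := card_star n
    have h4 : n - 1 ≤ extremalNumber n F := by
      refine h3.trans ?_
      convert! h1
    omega

/-- the density bound. -/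
lemma ex_density (F : SimpleGraph W) {l m : ℕ} (hl : 2 ≤ l) (hlm : l ≤ m) :
    (extremalNumber m F : ℝ) ≤ 2 * ((m : ℝ) / l) ^ 2 * extremalNumber l F := by
  have h := antitoneOn_extremalNumber_div_choose_two F (a := l) (b := m) hl
    (Set.mem_Ici.mpr (hl.trans hlm)) hlm
  simp only [Nat.cast_choose_two] at h
  have hl' : (2 : ℝ) ≤ l := by exact_mod_cast hl
  have hm' : (l : ℝ) ≤ m := by exact_mod_cast hlm
  have hE : (0 : ℝ) ≤ extremalNumber l F := Nat.cast_nonneg _
  have hE' : (0 : ℝ) ≤ extremalNumber m F := Nat.cast_nonneg _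
  have hlpos : (0 : ℝ) < (l : ℝ) * (l - 1) / 2 := by nlinarith
  have hmpos : (0 : ℝ) < (m : ℝ) * (m - 1) / 2 := by nlinarith
  rw [div_le_div_iff₀ hmpos hlpos] at h
  have h1 : (extremalNumber m F : ℝ) * ((l : ℝ) * (l - 1)) ≤
      extremalNumber l F * ((m : ℝ) * (m - 1)) := by linarith
  rw [div_pow, mul_div_assoc', div_mul_eq_mul_div, le_div_iff₀ (by positivity)]
  -- `ex m * l² ≤ 2 * ex m * l (l-1) ≤ 2 ex l m (m - 1) ≤ 2 ex l m²`
  nlinarith [mul_nonneg hE' (by nlinarith : (0:ℝ) ≤ (l:ℝ) * (l - 2)),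
    mul_nonneg hE (by linarith : (0:ℝ) ≤ (m:ℝ))]

/-- comparison of extremal numbers at different scales. -/
lemma ex_compare [Fintype W] {F : SimpleGraph W}
    (h2 : ∃ g₁ ∈ F.edgeSet, ∃ g₂ ∈ F.edgeSet, g₁ ≠ g₂) {l : ℕ} (hl : 2 ≤ l) (m : ℕ) :
    (extremalNumber m F : ℝ) ≤
      (((Fintype.card W : ℝ) ^ 2 + 1) + 2 * ((m : ℝ) / l) ^ 2) * extremalNumber l F := by
  have hE : (0 : ℝ) ≤ extremalNumber l F := Nat.cast_nonneg _
  have hE1 : (1 : ℝ) ≤ extremalNumber l F := by
    have := le_three_ex h2 hl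
    have h1 : 1 ≤ extremalNumber l F := by omega
    exact_mod_cast h1
  rcases le_total l m with hlm | hlm
  · refine (ex_density F hl hlm).trans ?_
    apply mul_le_mul_of_nonneg_right _ hE
    have : (0 : ℝ) ≤ (Fintype.card W : ℝ) ^ 2 + 1 := by positivity
    linarith
  · rcases le_total (Fintype.card W) m with hW | hW
    · have h1 : (extremalNumber m F : ℝ) ≤ extremalNumber l F := by
        exact_mod_cast ex_mono hW hlm
      refine h1.trans ?_
      nlinarith [sq_nonneg ((Fintype.card W : ℝ)), sq_nonneg ((m : ℝ) / l)]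
    · have h1 : (extremalNumber m F : ℝ) ≤ (m : ℝ) ^ 2 := by
        have h3 := ex_le_choose m F
        have h4 : m.choose 2 ≤ m ^ 2 := Nat.choose_le_pow m 2
        exact_mod_cast h3.trans h4
      have h5 : (m : ℝ) ≤ Fintype.card W := by exact_mod_cast hW
      have h6 : (m : ℝ) ^ 2 ≤ (Fintype.card W : ℝ) ^ 2 := by
        apply pow_le_pow_left₀ (Nat.cast_nonneg _) h5
      nlinarith [sq_nonneg ((Fintype.card W : ℝ)), sq_nonneg ((m : ℝ) / l)]

end Pool.Agent.Helper35.Boot
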