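import Pool.Agent.Helper35.Boot.Times
import Pool.Agent.Helper35.Boot.Turan

open Finset SimpleGraph

namespace Pool.Agent.Helper35.Boot

universe u v

variable {V : Type u} {W : Type v} {K : Type*}

open scoped Classical in
/-- The kept pairs of colour `k`: the monochromatic pairs of colour `k` infected at a time `σ ∈ T`
which contain all the vertices of colour `k` of the window of `σ`. -/
noncomputable def Y [Fintype V] (H : SimpleGraph W) (G : SimpleGraph V) (T : Finset ℕ)
    (c : V → K) (k : K) : Finset (Sym2 V) :=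
  Finset.univ.filter (fun z => ∃ σ ∈ T, z ∈ E H G σ ∧ (∀ x ∈ z, c x = k) ∧
    ∀ x ∈ VW H G σ, c x = k → x ∈ z)

variable [Fintype V] {H : SimpleGraph W} {G : SimpleGraph V}

lemma mem_Y {T : Finset ℕ} {c : V → K} {k : K} {z : Sym2 V} :
    z ∈ Y H G T c k ↔ ∃ σ ∈ T, z ∈ E H G σ ∧ (∀ x ∈ z, c x = k) ∧
    ∀ x ∈ VW H G σ, c x = k → x ∈ z := by
  simp [Y]

lemma eq_of_subset_sym2 {z z' : Sym2 V} (hz : ¬ z.IsDiag) (h : ∀ x ∈ z, x ∈ z') : z' = z := by
  induction z using Sym2.ind with
  | _ a b =>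
    rw [Sym2.mk_isDiag_iff] at hz
    exact (Sym2.mem_and_mem_iff hz).mp ⟨h a (Sym2.mem_mk_left a b), h b (Sym2.mem_mk_right a b)⟩

open scoped Classical in
lemma card_Y_le [Finite W] (e : Sym2 W) (he : e ∈ H.edgeSet)
    (h2 : ∃ g₁ ∈ (H.deleteEdges {e}).edgeSet, ∃ g₂ ∈ (H.deleteEdges {e}).edgeSet, g₁ ≠ g₂)
    (T : Finset ℕ) (hT : ∀ σ ∈ T, ∀ τ ∈ T, σ < τ → σ + 2 ≤ τ) (c : V → K) (k : K) :
    #(Y H G T c k) ≤ extremalNumber #{x : V | c x = k} (H.deleteEdges {e}) := by
  set F := H.deleteEdges {e} with hF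
  set S : Set V := {x | c x = k} with hS
  set Γ : SimpleGraph V := fromEdgeSet (Y H G T c k : Set (Sym2 V)) with hΓ
  have hYdiag : ∀ z ∈ Y H G T c k, ¬ z.IsDiag := by
    intro z hz
    obtain ⟨σ, -, h1, -⟩ := mem_Y.mp hz
    exact not_isDiag_of_mem_E h1
  have hadj : ∀ p q, Γ.Adj p q → s(p, q) ∈ Y H G T c k := by
    intro p q hpq
    rw [hΓ, fromEdgeSet_adj] at hpq
    exact_mod_cast hpq.1
  have hsupp : Γ.support ⊆ S := by
    intro x hx
    rw [SimpleGraph.mem_support] at hx
    obtain ⟨y, hxy⟩ := hx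
    obtain ⟨σ, -, -, h1, -⟩ := mem_Y.mp (hadj _ _ hxy)
    exact h1 x (Sym2.mem_mk_left x y)
  have hcard : #Γ.edgeFinset = #(Y H G T c k) := by
    congr 1
    ext z
    rw [SimpleGraph.mem_edgeFinset, hΓ, edgeSet_fromEdgeSet]
    simp only [Set.mem_sdiff, Finset.mem_coe]
    exact ⟨fun h => h.1, fun h => ⟨h, hYdiag z h⟩⟩
  have hcard2 : #(Γ.induce S).edgeFinset = #Γ.edgeFinset := by
    exact ((card_edgeFinset_inst _ _ _).trans
      (card_edgeFinset_induce_of_support_subset hsupp)).trans (card_edgeFinset_inst _ _ _)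
  have hfree : F.Free (Γ.induce S) := by
    rintro ⟨f⟩
    set φ : W → V := fun p => (f p).1 with hφ
    have hφi : Function.Injective φ := Subtype.val_injective.comp f.injective
    have hmap : ∀ g ∈ F.edgeSet, Sym2.map φ g ∈ Y H G T c k := by
      intro g hg
      induction g using Sym2.ind with
      | _ p q =>
        have h1 : (Γ.induce S).Adj (f p) (f q) := f.toHom.map_adj hg
        exact hadj _ _ h1
    have hex : ∀ g : Sym2 W, ∃ σ : ℕ, g ∈ F.edgeSet → σ ∈ T ∧ Sym2.map φ g ∈ E H G σ ∧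
        (∀ x ∈ Sym2.map φ g, c x = k) ∧ ∀ x ∈ VW H G σ, c x = k → x ∈ Sym2.map φ g := by
      intro g
      by_cases hg : g ∈ F.edgeSet
      · obtain ⟨σ, h1, h2, h3, h4⟩ := mem_Y.mp (hmap g hg)
        exact ⟨σ, fun _ => ⟨h1, h2, h3, h4⟩⟩
      · exact ⟨0, fun h => absurd h hg⟩
    choose τ hτ using hex
    obtain ⟨g₁, hg₁, g₂, hg₂, hg12⟩ := h2
    obtain ⟨g₀, hg₀, hmax⟩ := Set.exists_max_image F.edgeSet τ (Set.toFinite _) ⟨g₁, hg₁⟩
    obtain ⟨hT0, hE0, hc0, hw0⟩ := hτ g₀ hg₀
    -- all the other edges have times at most `τ g₀ - 2`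
    have hlt : ∀ g ∈ F.edgeSet, g ≠ g₀ → τ g + 2 ≤ τ g₀ := by
      intro g hg hne
      obtain ⟨hT1, hE1, hc1, hw1⟩ := hτ g hg
      apply hT _ hT1 _ hT0
      rcases lt_or_eq_of_le (hmax g hg) with h | h
      · exact h
      · exfalso
        apply hne
        apply Sym2.map.injective hφi
        symm
        apply eq_of_subset_sym2 (not_isDiag_of_mem_E hE1)
        intro x hx
        apply hw0 x _ (hc1 x hx)
        rw [mem_VW]
        right; left
        rw [mem_VE]
        rw [h] at hE1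
        exact ⟨_, hE1, hx⟩
    have hge : 2 ≤ τ g₀ := by
      by_cases h : g₁ = g₀
      · have := hlt g₂ hg₂ (fun h' => hg12 (h.trans h'.symm))
        omega
      · have := hlt g₁ hg₁ h
        omega
    induction e using Sym2.ind with
    | _ x y =>
    induction g₀ using Sym2.ind with
    | _ a b =>
    have hgF : H.Adj a b ∧ s(a, b) ≠ s(x, y) := by
      have := hg₀
      rw [hF, SimpleGraph.mem_edgeSet, SimpleGraph.deleteEdges_adj] at this
      exact ⟨this.1, by simpa using this.2⟩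
    have hmiss := missing_pair (H := H) (G := G) φ hφi (x := x) (y := y) (a := a) (b := b)
      he hgF.1 hgF.2 hge (by simpa using hE0) (by
        intro p q hpq h1 h3
        have hpqF : s(p, q) ∈ F.edgeSet := by
          rw [hF, SimpleGraph.mem_edgeSet, SimpleGraph.deleteEdges_adj]
          exact ⟨hpq, by simpa using h1⟩
        obtain ⟨-, hE1, -, -⟩ := hτ _ hpqF
        have h4 := hlt _ hpqF h3
        have h5 := (mem_E.mp hE1).1
        exact edgeSet_mono' (by omega) h5)
    -- the end vertices of the missing pair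
    have hmem : ∀ v ∈ s(φ x, φ y), v ∈ Sym2.map φ s(a, b) := by
      intro v hv
      apply hw0 v
      · rw [mem_VW, mem_VE, mem_VE, mem_VE]
        rcases hmiss with h | h | h
        · exact Or.inl ⟨_, h, hv⟩
        · exact Or.inr (Or.inl ⟨_, h, hv⟩)
        · exact Or.inr (Or.inr ⟨_, h, hv⟩)
      · rw [Sym2.mem_iff] at hv
        rcases hv with rfl | rfl
        · exact (f x).2
        · exact (f y).2
    have hxy : ¬ (s(φ x, φ y)).IsDiag := by
      rw [Sym2.mk_isDiag_iff]
      intro h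
      exact (SimpleGraph.Adj.ne (G := H) he) (hφi h)
    have h6 := eq_of_subset_sym2 hxy hmem
    apply hgF.2
    apply Sym2.map.injective hφi
    rw [h6]
    simp
  have h3 := card_edgeFinset_le_extremalNumber hfree
  rw [hcard2, hcard] at h3
  have h4 : Fintype.card S = #{x : V | c x = k} := by
    rw [Fintype.card_subtype]
    congr 1
  rw [← h4]
  exact h3

end Pool.Agent.Helper35.Boot
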