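import Pool.Agent.Helper35.Boot.Main

open Finset SimpleGraph

namespace Pool.Agent.Helper35.Boot

universe v

variable {W : Type v}

/-- The polylogarithmic form. -/
theorem polylog_bound [Finite W] (H : SimpleGraph W) (hH : 3 ≤ H.edgeSet.ncard) (e : Sym2 W)
    (he : e ∈ H.edgeSet) :
    ∃ C : ℝ, ∀ n : ℕ, (maxRunTime H n : ℝ) ≤
      C * (1 + Real.log n) ^ 2 * extremalNumber n (H.deleteEdges {e}) := by
  classical
  have := Fintype.ofFinite W
  set F := H.deleteEdges {e} with hF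
  have h2 := two_edges hH e he
  obtain ⟨C, hC0, hC⟩ := general_bound H hH e he
  obtain ⟨P, hP⟩ := ex_mul_le F
  refine ⟨C * (4 * (P * 14)), fun n => ?_⟩
  rcases le_or_gt n 1 with hn | hn
  · rw [maxRunTime_eq_zero H hn]
    push_cast
    positivity
  have hn2 : 2 ≤ n := hn
  have hnR : (2 : ℝ) ≤ n := by exact_mod_cast hn2
  have hE : (0 : ℝ) ≤ extremalNumber n F := Nat.cast_nonneg _
  have hlog0 : 0 ≤ Real.log n := Real.log_nonneg (by linarith)
  -- the number of scales
  have hL : ((Nat.log 2 n : ℝ) + 1) ≤ 2 * (1 + Real.log n) := by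
    have h3 : (Nat.log 2 n : ℝ) ≤ Real.logb 2 n := Real.natLog_le_logb n 2
    have h4 : Real.logb 2 n ≤ 2 * Real.log n := by
      rw [Real.logb, div_le_iff₀ (Real.log_pos (by norm_num))]
      have := Real.log_two_gt_d9
      nlinarith
    linarith
  -- each term
  have hterm : ∀ i ∈ Finset.range (Nat.log 2 n + 1), ((i : ℝ) + 1) * 2 ^ i *
      extremalNumber (n / 2 ^ i + 1) F ≤
      ((Nat.log 2 n : ℝ) + 1) * (P * 14 * extremalNumber n F) := by
    intro i hi
    rw [Finset.mem_range] at hi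
    have h3 : 2 ^ i ≤ n := Nat.pow_le_of_le_log (by omega) (by omega)
    have h4 : 2 ^ i * (n / 2 ^ i + 1) ≤ 2 * n := by
      rw [mul_add, mul_one]
      have := Nat.mul_div_le n (2 ^ i)
      omega
    have h5 := hP (2 ^ i) (n / 2 ^ i + 1) (2 * n) h4
    have h6 : (2 : ℝ) ^ i * extremalNumber (n / 2 ^ i + 1) F ≤
        P * (extremalNumber (2 * n) F + 2 * n) := by exact_mod_cast h5
    have h7 := ex_density F hn2 (show n ≤ 2 * n by omega)
    have h8 : (extremalNumber (2 * n) F : ℝ) ≤ 8 * extremalNumber n F := by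
      refine h7.trans (le_of_eq ?_)
      have : (((2 * n : ℕ) : ℝ) / n) = 2 := by
        push_cast
        field_simp
      rw [this]
      ring
    have h9 : (n : ℝ) ≤ 3 * extremalNumber n F := by exact_mod_cast le_three_ex h2 hn2
    have hP0 : (0 : ℝ) ≤ P := Nat.cast_nonneg _
    have h10 : (2 : ℝ) ^ i * extremalNumber (n / 2 ^ i + 1) F ≤ P * 14 * extremalNumber n F := by
      refine h6.trans ?_
      have : (extremalNumber (2 * n) F : ℝ) + 2 * n ≤ 14 * extremalNumber n F := by linarith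
      calc (P : ℝ) * (extremalNumber (2 * n) F + 2 * n) ≤ P * (14 * extremalNumber n F) :=
            mul_le_mul_of_nonneg_left this hP0
        _ = _ := by ring
    have h11 : (i : ℝ) + 1 ≤ (Nat.log 2 n : ℝ) + 1 := by
      have : i ≤ Nat.log 2 n := by omega
      have : (i : ℝ) ≤ (Nat.log 2 n : ℝ) := by exact_mod_cast this
      linarith
    calc ((i : ℝ) + 1) * 2 ^ i * extremalNumber (n / 2 ^ i + 1) F =
          ((i : ℝ) + 1) * (2 ^ i * extremalNumber (n / 2 ^ i + 1) F) := by ring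
      _ ≤ ((Nat.log 2 n : ℝ) + 1) * (P * 14 * extremalNumber n F) :=
          mul_le_mul h11 h10 (by positivity) (by positivity)
  have hsum := Finset.sum_le_card_nsmul _ _ _ hterm
  rw [Finset.card_range, nsmul_eq_mul] at hsum
  push_cast at hsum
  have hP0 : (0 : ℝ) ≤ P := Nat.cast_nonneg _
  calc (maxRunTime H n : ℝ) ≤ _ := hC n
    _ ≤ C * (((Nat.log 2 n : ℝ) + 1) *
        (((Nat.log 2 n : ℝ) + 1) * (P * 14 * extremalNumber n F))) :=
        mul_le_mul_of_nonneg_left hsum hC0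
    _ = C * (((Nat.log 2 n : ℝ) + 1) ^ 2 * (P * 14 * extremalNumber n F)) := by ring
    _ ≤ C * ((2 * (1 + Real.log n)) ^ 2 * (P * 14 * extremalNumber n F)) := by
        apply mul_le_mul_of_nonneg_left _ hC0
        apply mul_le_mul_of_nonneg_right _ (by positivity)
        exact pow_le_pow_left₀ (by positivity) hL 2
    _ = _ := by ring

/-- polynomial upper bounds transfer without loss. -/
theorem poly_bound [Finite W] (H : SimpleGraph W) (hH : 3 ≤ H.edgeSet.ncard) (e : Sym2 W)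
    (he : e ∈ H.edgeSet) (x : ℝ) (hx : 1 < x)
    (hO : (fun n : ℕ => (extremalNumber n (H.deleteEdges {e}) : ℝ)) =O[Filter.atTop]
      (fun n : ℕ => (n : ℝ) ^ x)) :
    (fun n : ℕ => (maxRunTime H n : ℝ)) =O[Filter.atTop] (fun n : ℕ => (n : ℝ) ^ x) := by
  set F := H.deleteEdges {e} with hF
  obtain ⟨C, hC0, hC⟩ := general_bound H hH e he
  -- a uniform constant
  obtain ⟨K, hK0, hK⟩ : ∃ K : ℝ, 0 ≤ K ∧ ∀ m : ℕ, 1 ≤ m →
      (extremalNumber m F : ℝ) ≤ K * (m : ℝ) ^ x := by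
    rw [Asymptotics.isBigO_iff] at hO
    obtain ⟨c, hc⟩ := hO
    rw [Filter.eventually_atTop] at hc
    obtain ⟨N, hN⟩ := hc
    refine ⟨max c ((N : ℝ) ^ 2), le_max_of_le_right (by positivity), fun m hm => ?_⟩
    have hm1 : (1 : ℝ) ≤ (m : ℝ) ^ x :=
      Real.one_le_rpow (by exact_mod_cast hm) (by linarith)
    rcases le_total N m with h | h
    · have h1 := hN m h
      rw [Real.norm_of_nonneg (Nat.cast_nonneg _), Real.norm_of_nonneg (by positivity)] at h1
      refine h1.trans ?_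
      apply mul_le_mul_of_nonneg_right (le_max_left _ _) (by positivity)
    · have h1 : (extremalNumber m F : ℝ) ≤ (m : ℝ) ^ 2 := by
        exact_mod_cast (ex_le_choose m F).trans (Nat.choose_le_pow m 2)
      have h3 : (m : ℝ) ^ 2 ≤ (N : ℝ) ^ 2 :=
        pow_le_pow_left₀ (Nat.cast_nonneg _) (by exact_mod_cast h) 2
      calc (extremalNumber m F : ℝ) ≤ (N : ℝ) ^ 2 := h1.trans h3
        _ ≤ (N : ℝ) ^ 2 * (m : ℝ) ^ x := le_mul_of_one_le_right (by positivity) hm1
        _ ≤ _ := mul_le_mul_of_nonneg_right (le_max_right _ _) (by positivity)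
  -- the geometric series
  set q : ℝ := (2 : ℝ) ^ (1 - x) with hq
  have hq0 : 0 < q := by positivity
  have hq1 : q < 1 := Real.rpow_lt_one_of_one_lt_of_neg (by norm_num) (by linarith)
  have hs : Summable (fun i : ℕ => ((i : ℝ) + 1) * q ^ i) := by
    have h1 : Summable (fun i : ℕ => (i : ℝ) ^ 1 * q ^ i) :=
      summable_pow_mul_geometric_of_norm_lt_one 1 (by rwa [Real.norm_of_nonneg hq0.le])
    have h3 : Summable (fun i : ℕ => q ^ i) := summable_geometric_of_lt_one hq0.le hq1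
    have := h1.add h3
    refine this.congr fun i => ?_
    ring
  set S : ℝ := ∑' i : ℕ, ((i : ℝ) + 1) * q ^ i with hS
  have hS0 : 0 ≤ S := tsum_nonneg (fun i => by positivity)
  rw [Asymptotics.isBigO_iff]
  refine ⟨C * (K * 2 ^ x * S), ?_⟩
  rw [Filter.eventually_atTop]
  refine ⟨1, fun n hn => ?_⟩
  have hn1 : (1 : ℝ) ≤ n := by exact_mod_cast hn
  rw [Real.norm_of_nonneg (Nat.cast_nonneg _), Real.norm_of_nonneg (by positivity)]
  have hterm : ∀ i ∈ Finset.range (Nat.log 2 n + 1), ((i : ℝ) + 1) * 2 ^ i *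
      extremalNumber (n / 2 ^ i + 1) F ≤ K * 2 ^ x * (n : ℝ) ^ x * (((i : ℝ) + 1) * q ^ i) := by
    intro i hi
    rw [Finset.mem_range] at hi
    have h3 : 2 ^ i ≤ n := Nat.pow_le_of_le_log (by omega) (by omega)
    have h3R : (2 : ℝ) ^ i ≤ n := by exact_mod_cast h3
    have h4 := hK (n / 2 ^ i + 1) (Nat.le_add_left 1 _)
    have h5 : ((n / 2 ^ i + 1 : ℕ) : ℝ) ≤ 2 * ((n : ℝ) / 2 ^ i) := by
      have h6 : ((n / 2 ^ i : ℕ) : ℝ) ≤ (n : ℝ) / 2 ^ i := by
        have := Nat.cast_div_le (α := ℝ) (m := n) (n := 2 ^ i)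
        push_cast at this
        exact this
      have h7 : 1 ≤ (n : ℝ) / 2 ^ i := by rwa [one_le_div (by positivity)]
      push_cast
      linarith
    have h6 : ((n / 2 ^ i + 1 : ℕ) : ℝ) ^ x ≤ (2 * ((n : ℝ) / 2 ^ i)) ^ x :=
      Real.rpow_le_rpow (Nat.cast_nonneg _) h5 (by linarith)
    have h7 : (2 * ((n : ℝ) / 2 ^ i)) ^ x = 2 ^ x * ((n : ℝ) ^ x / ((2 : ℝ) ^ i) ^ x) := by
      rw [Real.mul_rpow (by norm_num) (by positivity), Real.div_rpow (by positivity)
        (by positivity)]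
    have h8 : (2 : ℝ) ^ i * (1 / ((2 : ℝ) ^ i) ^ x) = q ^ i := by
      rw [hq, ← Real.rpow_natCast ((2 : ℝ) ^ (1 - x)) i, ← Real.rpow_mul (by norm_num),
        ← Real.rpow_natCast 2 i, ← Real.rpow_mul (by norm_num), one_div, ← Real.rpow_neg
        (by norm_num), ← Real.rpow_add (by norm_num)]
      congr 1
      ring
    calc ((i : ℝ) + 1) * 2 ^ i * extremalNumber (n / 2 ^ i + 1) F
        ≤ ((i : ℝ) + 1) * 2 ^ i * (K * (2 ^ x * ((n : ℝ) ^ x / ((2 : ℝ) ^ i) ^ x))) := by
          apply mul_le_mul_of_nonneg_left _ (by positivity)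
          refine h4.trans ?_
          apply mul_le_mul_of_nonneg_left _ hK0
          rw [← h7]
          exact h6
      _ = K * 2 ^ x * (n : ℝ) ^ x * (((i : ℝ) + 1) * ((2 : ℝ) ^ i * (1 / ((2 : ℝ) ^ i) ^ x))) := by
          ring
      _ = _ := by rw [h8]
  have hsum : ∑ i ∈ Finset.range (Nat.log 2 n + 1), ((i : ℝ) + 1) * 2 ^ i *
      extremalNumber (n / 2 ^ i + 1) F ≤ K * 2 ^ x * (n : ℝ) ^ x * S := by
    refine (Finset.sum_le_sum hterm).trans ?_
    rw [← Finset.mul_sum]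
    apply mul_le_mul_of_nonneg_left _ (by positivity)
    exact hs.sum_le_tsum _ (fun i _ => by positivity)
  calc (maxRunTime H n : ℝ) ≤ _ := hC n
    _ ≤ C * (K * 2 ^ x * (n : ℝ) ^ x * S) := mul_le_mul_of_nonneg_left hsum hC0
    _ = _ := by ring

end Pool.Agent.Helper35.Boot
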