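import Mathlib

open Finset

namespace Pool.Agent.Helper35.Boot

variable {V K : Type*} [Fintype V] [Fintype K]

open scoped Classical in
/-- number of colourings with prescribed lists, as a product. -/
lemma card_lists (L : V → Finset K) :
    (#{c : V → K | ∀ x, c x ∈ L x} : ℝ) = ∏ x, (#(L x) : ℝ) := by
  have : (Finset.univ.filter (fun c : V → K => ∀ x, c x ∈ L x)) = Fintype.piFinset L := by
    ext c
    simp [Fintype.mem_piFinset]
  rw [this, Fintype.card_piFinset]
  push_cast
  rfl

lemma prod_ite_mem_eq (A : Finset V) [DecidablePred (· ∈ A)] (q : ℝ) :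
    ∏ x : V, (if x ∈ A then q else 1) = q ^ #A := by
  classical
  rw [Finset.prod_ite, Finset.prod_const, Finset.prod_const_one, mul_one]
  congr 1
  congr 1
  ext x
  simp

open scoped Classical in
/-- number of colourings which give colour `k` to all the vertices of `A`. -/
lemma card_mono (A : Finset V) (k : K) :
    (#{c : V → K | ∀ x ∈ A, c x = k} : ℝ) =
      (Fintype.card K : ℝ) ^ Fintype.card V * (1 / (Fintype.card K : ℝ)) ^ #A := by
  have hK : (Fintype.card K : ℝ) ≠ 0 := by
    have : 0 < Fintype.card K := Fintype.card_pos_iff.mpr ⟨k⟩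
    positivity
  have h1 := card_lists (V := V) (K := K) (fun x => if x ∈ A then {k} else Finset.univ)
  have h2 : (Finset.univ.filter (fun c : V → K =>
      ∀ x, c x ∈ (if x ∈ A then ({k} : Finset K) else Finset.univ))) =
      Finset.univ.filter (fun c : V → K => ∀ x ∈ A, c x = k) := by
    ext c
    simp only [Finset.mem_filter, Finset.mem_univ, true_and]
    constructor
    · intro h x hx
      have := h x
      rw [if_pos hx] at this
      simpa using this
    · intro h x
      by_cases hx : x ∈ A
      · rw [if_pos hx]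
        simpa using h x hx
      · rw [if_neg hx]
        exact Finset.mem_univ _
  rw [h2] at h1
  rw [h1, ← prod_ite_mem_eq A]
  have h3 : (Fintype.card K : ℝ) ^ Fintype.card V = ∏ _x : V, (Fintype.card K : ℝ) := by
    rw [Finset.prod_const, Finset.card_univ]
  rw [h3, ← Finset.prod_mul_distrib]
  apply Finset.prod_congr rfl
  intro x _
  by_cases hx : x ∈ A
  · simp [hx, hK]
  · simp [hx]

open scoped Classical in
/-- lower bound for the number of colourings for which `z` is kept with colour `k`. -/
lemma card_good (z : Sym2 V) (hz : ¬ z.IsDiag) (S : Finset V) (k : K)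
    (hS : 2 * #S ≤ Fintype.card K) :
    (Fintype.card K : ℝ) ^ Fintype.card V * (1 / (Fintype.card K : ℝ)) ^ 2 / 2 ≤
      (#{c : V → K | (∀ x ∈ z, c x = k) ∧ ∀ x ∈ S, c x = k → x ∈ z} : ℝ) := by
  have hKpos : 0 < Fintype.card K := Fintype.card_pos_iff.mpr ⟨k⟩
  have hK : (0 : ℝ) < (Fintype.card K : ℝ) := by exact_mod_cast hKpos
  have hK1 : (1 : ℝ) ≤ (Fintype.card K : ℝ) := by exact_mod_cast hKpos
  have h1 := card_lists (V := V) (K := K)
    (fun x => if x ∈ z then {k} else if x ∈ S then Finset.univ.erase k else Finset.univ)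
  have h2 : (Finset.univ.filter (fun c : V → K =>
      ∀ x, c x ∈ (if x ∈ z then ({k} : Finset K) else if x ∈ S then Finset.univ.erase k
        else Finset.univ))) =
      Finset.univ.filter (fun c : V → K => (∀ x ∈ z, c x = k) ∧ ∀ x ∈ S, c x = k → x ∈ z) := by
    ext c
    simp only [Finset.mem_filter, Finset.mem_univ, true_and]
    constructor
    · intro h
      constructor
      · intro x hx
        have := h x
        rw [if_pos hx] at this
        simpa using this
      · intro x hx hc
        by_contra hxz
        have := h x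
        rw [if_neg hxz, if_pos hx] at this
        exact (Finset.mem_erase.mp this).1 hc
    · rintro ⟨h, h'⟩ x
      by_cases hx : x ∈ z
      · rw [if_pos hx]
        simpa using h x hx
      · rw [if_neg hx]
        by_cases hxS : x ∈ S
        · rw [if_pos hxS, Finset.mem_erase]
          exact ⟨fun hc => hx (h' x hxS hc), Finset.mem_univ _⟩
        · rw [if_neg hxS]
          exact Finset.mem_univ _
  rw [h2] at h1
  rw [h1]
  -- the two vertices of `z`
  obtain ⟨Z, hZ, hZc⟩ : ∃ Z : Finset V, (∀ x, x ∈ Z ↔ x ∈ z) ∧ #Z = 2 := by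
    induction z using Sym2.ind with
    | _ a b =>
      rw [Sym2.mk_isDiag_iff] at hz
      exact ⟨{a, b}, by simp, Finset.card_pair hz⟩
  have h3 : (Fintype.card K : ℝ) ^ Fintype.card V = ∏ _x : V, (Fintype.card K : ℝ) := by
    rw [Finset.prod_const, Finset.card_univ]
  have h4 : ∏ x : V, ((Fintype.card K : ℝ) * (if x ∈ Z then 1 / (Fintype.card K : ℝ) else 1) *
      (if x ∈ S then (1 + -(1 / (Fintype.card K : ℝ))) else 1)) ≤
      ∏ x : V, (#(if x ∈ z then ({k} : Finset K) else if x ∈ S then Finset.univ.erase k
        else Finset.univ) : ℝ) := by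
    apply Finset.prod_le_prod
    · intro x _
      have h5 : (0 : ℝ) ≤ 1 + -(1 / (Fintype.card K : ℝ)) := by
        have : 1 / (Fintype.card K : ℝ) ≤ 1 := by
          rw [div_le_one hK]; exact hK1
        linarith
      by_cases hx : x ∈ Z <;> by_cases hxS : x ∈ S <;> simp only [hx, hxS, if_true, if_false] <;>
        positivity
    · intro x _
      by_cases hx : x ∈ Z
      · have hx' : x ∈ z := (hZ x).mp hx
        simp only [hx, hx', if_true, Finset.card_singleton, Nat.cast_one]
        rw [mul_one_div_cancel hK.ne']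
        by_cases hxS : x ∈ S
        · simp only [hxS, if_true, one_mul]
          have : 0 ≤ 1 / (Fintype.card K : ℝ) := by positivity
          linarith
        · simp [hxS]
      · have hx' : x ∉ z := fun h => hx ((hZ x).mpr h)
        simp only [hx, hx', if_false, mul_one]
        by_cases hxS : x ∈ S
        · simp only [hxS, if_true]
          rw [Finset.card_erase_of_mem (Finset.mem_univ k), Finset.card_univ,
            Nat.cast_sub hKpos, Nat.cast_one]
          rw [mul_add, mul_one, mul_neg, mul_one_div_cancel hK.ne']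
          linarith
        · simp [hxS]
  refine le_trans ?_ h4
  rw [Finset.prod_mul_distrib, Finset.prod_mul_distrib, ← h3, prod_ite_mem_eq Z,
    prod_ite_mem_eq S, hZc, div_eq_mul_inv]
  apply mul_le_mul_of_nonneg_left _ (by positivity)
  -- Bernoulli
  have h5 : (-2 : ℝ) ≤ -(1 / (Fintype.card K : ℝ)) := by
    have : 1 / (Fintype.card K : ℝ) ≤ 1 := by
      rw [div_le_one hK]; exact hK1
    linarith
  have h6 := one_add_mul_le_pow h5 #S
  refine le_trans ?_ h6
  have h7 : (#S : ℝ) * (1 / (Fintype.card K : ℝ)) ≤ 1 / 2 := by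
    rw [mul_one_div, div_le_div_iff₀ hK (by norm_num)]
    have : (2 * #S : ℝ) ≤ (Fintype.card K : ℝ) := by exact_mod_cast hS
    linarith
  nlinarith

open scoped Classical in
/-- the sum over all the colourings of the sum of the squares of the sizes of the colour
classes. -/
lemma sum_sq :
    ∑ c : V → K, ∑ k : K, (#{x : V | c x = k} : ℝ) ^ 2 ≤
      (Fintype.card K : ℝ) ^ Fintype.card V *
        (Fintype.card V + (Fintype.card V : ℝ) ^ 2 / (Fintype.card K : ℝ)) := by
  rcases isEmpty_or_nonempty K with hKe | hKne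
  · have : ∑ c : V → K, ∑ k : K, (#{x : V | c x = k} : ℝ) ^ 2 = 0 := by
      apply Finset.sum_eq_zero
      intro c _
      simp
    rw [this]
    positivity
  have hK : (0 : ℝ) < (Fintype.card K : ℝ) := by
    have : 0 < Fintype.card K := Fintype.card_pos
    exact_mod_cast this
  have h1 : ∀ (c : V → K) (k : K), (#{x : V | c x = k} : ℝ) ^ 2 =
      ∑ u : V, ∑ v : V, (if ∀ x ∈ ({u, v} : Finset V), c x = k then (1 : ℝ) else 0) := by
    intro c k
    rw [sq]
    have : (#{x : V | c x = k} : ℝ) = ∑ u : V, (if c u = k then (1 : ℝ) else 0) := by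
      rw [Finset.sum_boole]
    rw [this, Finset.sum_mul_sum]
    apply Finset.sum_congr rfl
    intro u _
    apply Finset.sum_congr rfl
    intro v _
    by_cases hu : c u = k <;> by_cases hv : c v = k <;> simp [hu, hv]
  have h2 : ∑ c : V → K, ∑ k : K, (#{x : V | c x = k} : ℝ) ^ 2 =
      ∑ u : V, ∑ v : V, ∑ k : K, (#{c : V → K | ∀ x ∈ ({u, v} : Finset V), c x = k} : ℝ) := by
    simp_rw [h1]
    have h3 : ∀ u v : V, ∀ k : K,
        (#{c : V → K | ∀ x ∈ ({u, v} : Finset V), c x = k} : ℝ) =
        ∑ c : V → K, (if ∀ x ∈ ({u, v} : Finset V), c x = k then (1 : ℝ) else 0) := by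
      intro u v k
      rw [Finset.sum_boole]
    simp_rw [h3]
    rw [Finset.sum_comm]
    have h4 : ∀ k : K, ∑ c : V → K, ∑ u : V, ∑ v : V,
        (if ∀ x ∈ ({u, v} : Finset V), c x = k then (1 : ℝ) else 0) =
        ∑ u : V, ∑ v : V, ∑ c : V → K,
        (if ∀ x ∈ ({u, v} : Finset V), c x = k then (1 : ℝ) else 0) := by
      intro k
      rw [Finset.sum_comm]
      apply Finset.sum_congr rfl
      intro u _
      rw [Finset.sum_comm]
    simp_rw [h4]
    rw [Finset.sum_comm]
    apply Finset.sum_congr rfl
    intro u _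
    rw [Finset.sum_comm]
  rw [h2]
  have h5 : ∀ u v : V, ∑ k : K, (#{c : V → K | ∀ x ∈ ({u, v} : Finset V), c x = k} : ℝ) =
      (Fintype.card K : ℝ) * ((Fintype.card K : ℝ) ^ Fintype.card V *
        (1 / (Fintype.card K : ℝ)) ^ #({u, v} : Finset V)) := by
    intro u v
    rw [Finset.sum_congr rfl (fun k _ => card_mono ({u, v} : Finset V) k), Finset.sum_const,
      Finset.card_univ, nsmul_eq_mul]
  simp_rw [h5]
  have h6 : ∀ u v : V, (Fintype.card K : ℝ) * ((Fintype.card K : ℝ) ^ Fintype.card V *
        (1 / (Fintype.card K : ℝ)) ^ #({u, v} : Finset V)) ≤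
      (Fintype.card K : ℝ) ^ Fintype.card V *
        ((if u = v then 1 else 0) + 1 / (Fintype.card K : ℝ)) := by
    intro u v
    by_cases huv : u = v
    · subst huv
      simp only [Finset.pair_eq_singleton, Finset.card_singleton, pow_one, if_true]
      have : (Fintype.card K : ℝ) * ((Fintype.card K : ℝ) ^ Fintype.card V *
        (1 / (Fintype.card K : ℝ))) = (Fintype.card K : ℝ) ^ Fintype.card V * 1 := by
        field_simp
      rw [this]
      apply mul_le_mul_of_nonneg_left _ (by positivity)
      have : 0 ≤ 1 / (Fintype.card K : ℝ) := by positivity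
      linarith
    · rw [Finset.card_pair huv, if_neg huv, zero_add]
      apply le_of_eq
      field_simp
  calc ∑ u : V, ∑ v : V, (Fintype.card K : ℝ) * ((Fintype.card K : ℝ) ^ Fintype.card V *
        (1 / (Fintype.card K : ℝ)) ^ #({u, v} : Finset V))
      ≤ ∑ u : V, ∑ v : V, (Fintype.card K : ℝ) ^ Fintype.card V *
        ((if u = v then 1 else 0) + 1 / (Fintype.card K : ℝ)) :=
        Finset.sum_le_sum (fun u _ => Finset.sum_le_sum (fun v _ => h6 u v))
    _ = _ := by
        simp_rw [← Finset.mul_sum, Finset.sum_add_distrib, Finset.sum_const, Finset.card_univ,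
          Finset.sum_ite_eq, Finset.mem_univ, if_true, Finset.sum_const, Finset.card_univ,
          nsmul_eq_mul]
        ring

end Pool.Agent.Helper35.Boot
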