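import Mathlib

/-!
# The `H`-process (graph bootstrap percolation) and its maximum running time
-/

open Finset

namespace Pool.Agent.Helper35.Boot

universe u v

variable {V : Type u} {W : Type v}

/-- One round of the `H`-process on a graph `G`: every non-edge `ab` of `G` such that `G + ab` has
more copies of `H` than `G` is added.  (`G.copyCount H` is Mathlib's number of subgraphs of `G`
isomorphic to `H`, and `SimpleGraph.edge a b` is the graph whose only edge is `ab`.) -/
noncomputable def step [Fintype V] (H : SimpleGraph W) (G : SimpleGraph V) : SimpleGraph V where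
  Adj a b := G.Adj a b ∨ (a ≠ b ∧ G.copyCount H < (G ⊔ SimpleGraph.edge a b).copyCount H)
  symm := ⟨by
    intro a b h
    rcases h with h | ⟨h1, h2⟩
    · exact Or.inl h.symm
    · exact Or.inr ⟨h1.symm, by rwa [SimpleGraph.edge_comm]⟩⟩
  loopless := ⟨by
    intro a h
    rcases h with h | ⟨h1, -⟩
    · exact G.loopless.irrefl a h
    · exact h1 rfl⟩

/-- The `H`-process `G₀ = G, G₁, G₂, …` started from `G`. -/
noncomputable def proc [Fintype V] (H : SimpleGraph W) (G : SimpleGraph V) : ℕ → SimpleGraph V
  | 0 => G
  | i + 1 => step H (proc H G i)

/-- The running time `min {t : G_t = G_{t+1}}` of the `H`-process started from `G`. -/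
noncomputable def runTime [Fintype V] (H : SimpleGraph W) (G : SimpleGraph V) : ℕ :=
  sInf {t : ℕ | proc H G t = proc H G (t + 1)}

open scoped Classical in
/-- The maximum running time `M_H(n)` over all graphs with `n` vertices. -/
noncomputable def maxRunTime (H : SimpleGraph W) (n : ℕ) : ℕ :=
  (Finset.univ : Finset (SimpleGraph (Fin n))).sup (runTime H)

end Pool.Agent.Helper35.Boot
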