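import Pool.Agent.Helper35.Boot.Cons

open Finset SimpleGraph

namespace Pool.Agent.Helper35.Boot

universe v

variable {W : Type v}

/-- the exact bound, when the extremal number grows regularly faster than linearly. -/
theorem doubling_bound [Finite W] (H : SimpleGraph W) (hH : 3 ≤ H.edgeSet.ncard) (e : Sym2 W)
    (he : e ∈ H.edgeSet) (δ : ℝ) (hδ : 0 < δ)
    (hD : ∀ᶠ m : ℕ in Filter.atTop, (2 + δ) * (extremalNumber m (H.deleteEdges {e}) : ℝ) ≤
      extremalNumber (2 * m) (H.deleteEdges {e})) :
    ∃ C : ℝ, ∀ n : ℕ, (maxRunTime H n : ℝ) ≤ C * extremalNumber n (H.deleteEdges {e}) := by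
  classical
  have := Fintype.ofFinite W
  set F := H.deleteEdges {e} with hF
  have h2 : ∃ g₁ ∈ F.edgeSet, ∃ g₂ ∈ F.edgeSet, g₁ ≠ g₂ := two_edges hH e he
  obtain ⟨C, hC0, hC⟩ := general_bound H hH e he
  obtain ⟨C₁, hC₁⟩ := polylog_bound H hH e he
  rw [Filter.eventually_atTop] at hD
  obtain ⟨N₀, hN₀⟩ := hD
  set N := N₀ + Fintype.card W + 2 with hN
  have hNW : Fintype.card W ≤ N := by omega
  have hN2 : 2 ≤ N := by omega
  -- the geometric series
  set q : ℝ := 2 / (2 + δ) with hq
  have hq0 : 0 < q := by positivity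
  have hq1 : q < 1 := by rw [hq, div_lt_one (by positivity)]; linarith
  have hs : Summable (fun i : ℕ => ((i : ℝ) + 1) * q ^ i) := by
    have h1 : Summable (fun i : ℕ => (i : ℝ) ^ 1 * q ^ i) :=
      summable_pow_mul_geometric_of_norm_lt_one 1 (by rwa [Real.norm_of_nonneg hq0.le])
    have h3 : Summable (fun i : ℕ => q ^ i) := summable_geometric_of_lt_one hq0.le hq1
    have := h1.add h3
    refine this.congr fun i => ?_
    ring
  set S : ℝ := ∑' i : ℕ, ((i : ℝ) + 1) * q ^ i with hS
  have hS0 : 0 ≤ S := tsum_nonneg (fun i => by positivity)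
  have hSi : ∀ i : ℕ, ((i : ℝ) + 1) * q ^ i ≤ S := fun i =>
    hs.le_tsum i (fun j _ => by positivity)
  -- iterated doubling
  have hdoub : ∀ m, N ≤ m → ∀ j : ℕ, (2 + δ) ^ j * (extremalNumber m F : ℝ) ≤
      extremalNumber (2 ^ j * m) F := by
    intro m hm j
    induction j with
    | zero => simp
    | succ j ih =>
      have h1 : N₀ ≤ 2 ^ j * m := by
        have : 1 ≤ 2 ^ j := Nat.one_le_two_pow
        nlinarith
      have h3 := hN₀ (2 ^ j * m) h1
      have h4 : 2 ^ (j + 1) * m = 2 * (2 ^ j * m) := by ring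
      rw [h4]
      refine le_trans ?_ h3
      calc (2 + δ) ^ (j + 1) * (extremalNumber m F : ℝ) =
            (2 + δ) * ((2 + δ) ^ j * (extremalNumber m F : ℝ)) := by ring
        _ ≤ _ := mul_le_mul_of_nonneg_left ih (by positivity)
  have hkey : ∀ n i : ℕ, 2 ^ i * N ≤ n →
      (2 + δ) ^ i * (extremalNumber (n / 2 ^ i) F : ℝ) ≤ extremalNumber n F := by
    intro n i h
    have h1 : N ≤ n / 2 ^ i := by
      rw [Nat.le_div_iff_mul_le (by positivity), mul_comm]
      exact h
    refine (hdoub _ h1 i).trans ?_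
    have h3 : Fintype.card W ≤ 2 ^ i * (n / 2 ^ i) := by
      have : 1 ≤ 2 ^ i := Nat.one_le_two_pow
      nlinarith
    exact_mod_cast ex_mono h3 (Nat.mul_div_le n (2 ^ i))
  refine ⟨max (C * (8 * S + (N + 2) * (2 * N ^ 3 * (N + 3) * S))) (C₁ * (1 + Real.log N) ^ 2 ⊔ 0),
    fun n => ?_⟩
  have hE : (0 : ℝ) ≤ extremalNumber n F := Nat.cast_nonneg _
  rcases lt_or_ge n N with hn | hn
  · -- small `n`
    rcases le_or_gt n 1 with hn1 | hn1
    · rw [maxRunTime_eq_zero H hn1]
      push_cast
      apply mul_nonneg _ hE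
      exact le_max_of_le_right (le_max_right _ _)
    · have hnR : (1 : ℝ) < n := by exact_mod_cast hn1
      have hE1 : 0 < (extremalNumber n F : ℝ) := by
        have := le_three_ex h2 (n := n) (by omega)
        have : 0 < extremalNumber n F := by omega
        exact_mod_cast this
      have h1 := hC₁ n
      have hlog : Real.log n ≤ Real.log N := Real.log_le_log (by linarith) (by exact_mod_cast hn.le)
      have hlog0 : 0 ≤ Real.log n := Real.log_nonneg hnR.le
      refine h1.trans ?_
      apply mul_le_mul_of_nonneg_right _ hE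
      apply le_max_of_le_right
      rcases le_or_gt 0 C₁ with hc | hc
      · apply le_max_of_le_left
        apply mul_le_mul_of_nonneg_left _ hc
        exact pow_le_pow_left₀ (by positivity) (by linarith) 2
      · apply le_max_of_le_right
        nlinarith [sq_nonneg (1 + Real.log n)]
  · -- large `n`
    have hn0 : n ≠ 0 := by omega
    have hE1 : 0 < (extremalNumber n F : ℝ) := by
      have := le_three_ex h2 (n := n) (by omega)
      have : 0 < extremalNumber n F := by omega
      exact_mod_cast this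
    set J := Nat.log 2 (n / N) with hJ
    have hnN : n / N ≠ 0 := by
      have : 1 ≤ n / N := (Nat.one_le_div_iff (by omega)).mpr hn
      omega
    have hJ1 : 2 ^ J * N ≤ n := by
      have h1 : 2 ^ J ≤ n / N := Nat.pow_log_le_self 2 hnN
      calc 2 ^ J * N ≤ n / N * N := Nat.mul_le_mul_right _ h1
        _ ≤ n := Nat.div_mul_le_self n N
    have hJ2 : n < 2 ^ (J + 1) * N := by
      have h1 : n / N < 2 ^ (J + 1) := Nat.lt_pow_succ_log_self (by norm_num) _
      exact (Nat.div_lt_iff_lt_mul (by omega)).mp h1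
    have hJle : J ≤ Nat.log 2 n := Nat.log_mono_right (Nat.div_le_self n N)
    have hlogN : Nat.log 2 n ≤ J + 1 + N := by
      have h1 : n < 2 ^ (J + 1 + N) := by
        rw [pow_add]
        exact hJ2.trans_le (Nat.mul_le_mul_left _ Nat.lt_two_pow_self.le)
      have := Nat.log_lt_of_lt_pow hn0 h1
      omega
    have hpowJ : (2 : ℝ) ^ J = q ^ J * (2 + δ) ^ J := by
      rw [hq, ← mul_pow]
      congr 1
      field_simp
    -- the two kinds of terms
    have hterm1 : ∀ i ∈ (Finset.range (Nat.log 2 n + 1)).filter (fun i => i ≤ J),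
        ((i : ℝ) + 1) * 2 ^ i * extremalNumber (n / 2 ^ i + 1) F ≤
        8 * extremalNumber n F * (((i : ℝ) + 1) * q ^ i) := by
      intro i hi
      rw [Finset.mem_filter, Finset.mem_range] at hi
      have h1 : 2 ^ i * N ≤ n := by
        refine le_trans ?_ hJ1
        exact Nat.mul_le_mul_right _ (Nat.pow_le_pow_right (by norm_num) hi.2)
      have h3 := hkey n i h1
      have h4 : N ≤ n / 2 ^ i := by
        rw [Nat.le_div_iff_mul_le (by positivity), mul_comm]
        exact h1
      have h5 := ex_density F (l := n / 2 ^ i) (m := n / 2 ^ i + 1) (by omega) (by omega)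
      have h6 : (extremalNumber (n / 2 ^ i + 1) F : ℝ) ≤ 8 * extremalNumber (n / 2 ^ i) F := by
        refine h5.trans ?_
        apply mul_le_mul_of_nonneg_right _ (Nat.cast_nonneg _)
        have h7 : (2 : ℝ) ≤ ((n / 2 ^ i : ℕ) : ℝ) := by exact_mod_cast hN2.trans h4
        have h8 : (((n / 2 ^ i + 1 : ℕ) : ℝ) / ((n / 2 ^ i : ℕ) : ℝ)) ≤ 2 := by
          rw [div_le_iff₀ (by linarith)]
          push_cast at h7 ⊢
          linarith
        have h9 : (0 : ℝ) ≤ (((n / 2 ^ i + 1 : ℕ) : ℝ) / ((n / 2 ^ i : ℕ) : ℝ)) := by positivity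
        nlinarith
      have h7 : (2 : ℝ) ^ i = q ^ i * (2 + δ) ^ i := by
        rw [hq, ← mul_pow]
        congr 1
        field_simp
      calc ((i : ℝ) + 1) * 2 ^ i * extremalNumber (n / 2 ^ i + 1) F
          ≤ ((i : ℝ) + 1) * 2 ^ i * (8 * extremalNumber (n / 2 ^ i) F) :=
            mul_le_mul_of_nonneg_left h6 (by positivity)
        _ = 8 * (((i : ℝ) + 1) * q ^ i) * ((2 + δ) ^ i * extremalNumber (n / 2 ^ i) F) := by
            rw [h7]; ring
        _ ≤ 8 * (((i : ℝ) + 1) * q ^ i) * extremalNumber n F :=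
            mul_le_mul_of_nonneg_left h3 (by positivity)
        _ = _ := by ring
    have hterm2 : ∀ i ∈ (Finset.range (Nat.log 2 n + 1)).filter (fun i => ¬ i ≤ J),
        ((i : ℝ) + 1) * 2 ^ i * extremalNumber (n / 2 ^ i + 1) F ≤
        2 * N ^ 3 * (N + 3) * S * extremalNumber n F := by
      intro i hi
      rw [Finset.mem_filter, Finset.mem_range] at hi
      have h1 : n / 2 ^ i + 1 ≤ N := by
        have h3 : n / 2 ^ i < N := by
          rw [Nat.div_lt_iff_lt_mul (by positivity)]
          refine hJ2.trans_le ?_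
          rw [mul_comm]
          exact Nat.mul_le_mul_left _ (Nat.pow_le_pow_right (by norm_num) (by omega))
        omega
      have h3 : (extremalNumber (n / 2 ^ i + 1) F : ℝ) ≤ (N : ℝ) ^ 2 := by
        have h4 := (ex_le_choose (n / 2 ^ i + 1) F).trans (Nat.choose_le_pow _ 2)
        have h5 : (n / 2 ^ i + 1) ^ 2 ≤ N ^ 2 := Nat.pow_le_pow_left h1 2
        exact_mod_cast h4.trans h5
      have h4 : 2 ^ i ≤ n := Nat.pow_le_of_le_log hn0 (by omega)
      have h5 : (2 : ℝ) ^ i ≤ 2 * 2 ^ J * N := by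
        have : 2 ^ i ≤ 2 ^ (J + 1) * N := h4.trans hJ2.le
        rw [pow_succ] at this
        have : (2 : ℝ) ^ i ≤ 2 ^ J * 2 * N := by exact_mod_cast this
        linarith
      have h6 : ((i : ℝ) + 1) ≤ (N + 3) * ((J : ℝ) + 1) := by
        have : i ≤ J + 1 + N := by omega
        have h7 : (i : ℝ) ≤ J + 1 + N := by exact_mod_cast this
        have hJ0 : (0 : ℝ) ≤ J := Nat.cast_nonneg _
        have hN0 : (0 : ℝ) ≤ N := Nat.cast_nonneg _
        nlinarith [mul_nonneg hN0 hJ0]
      have h7 : (2 + δ) ^ J ≤ (extremalNumber n F : ℝ) := by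
        have h8 := hkey n J hJ1
        have h9 : (1 : ℝ) ≤ extremalNumber (n / 2 ^ J) F := by
          have h10 : 2 ≤ n / 2 ^ J := by
            rw [Nat.le_div_iff_mul_le (by positivity)]
            calc 2 * 2 ^ J ≤ N * 2 ^ J := Nat.mul_le_mul_right _ hN2
              _ = 2 ^ J * N := by ring
              _ ≤ n := hJ1
          have := le_three_ex h2 h10
          have : 1 ≤ extremalNumber (n / 2 ^ J) F := by omega
          exact_mod_cast this
        refine le_trans ?_ h8
        exact le_mul_of_one_le_right (by positivity) h9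
      calc ((i : ℝ) + 1) * 2 ^ i * extremalNumber (n / 2 ^ i + 1) F
          ≤ ((N + 3) * ((J : ℝ) + 1)) * (2 * 2 ^ J * N) * (N : ℝ) ^ 2 := by
            apply mul_le_mul _ h3 (by positivity) (by positivity)
            exact mul_le_mul h6 h5 (by positivity) (by positivity)
        _ = 2 * N ^ 3 * (N + 3) * (((J : ℝ) + 1) * q ^ J) * (2 + δ) ^ J := by
            rw [hpowJ]; ring
        _ ≤ 2 * N ^ 3 * (N + 3) * S * (2 + δ) ^ J := by
            apply mul_le_mul_of_nonneg_right _ (by positivity)
            exact mul_le_mul_of_nonneg_left (hSi J) (by positivity)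
        _ ≤ 2 * N ^ 3 * (N + 3) * S * extremalNumber n F :=
            mul_le_mul_of_nonneg_left h7 (by positivity)
    have hsum1 : ∑ i ∈ (Finset.range (Nat.log 2 n + 1)).filter (fun i => i ≤ J),
        ((i : ℝ) + 1) * 2 ^ i * extremalNumber (n / 2 ^ i + 1) F ≤
        8 * extremalNumber n F * S := by
      refine (Finset.sum_le_sum hterm1).trans ?_
      rw [← Finset.mul_sum]
      apply mul_le_mul_of_nonneg_left _ (by positivity)
      exact hs.sum_le_tsum _ (fun i _ => by positivity)
    have hsum2 : ∑ i ∈ (Finset.range (Nat.log 2 n + 1)).filter (fun i => ¬ i ≤ J),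
        ((i : ℝ) + 1) * 2 ^ i * extremalNumber (n / 2 ^ i + 1) F ≤
        (N + 2) * (2 * N ^ 3 * (N + 3) * S * extremalNumber n F) := by
      refine (Finset.sum_le_card_nsmul _ _ _ hterm2).trans ?_
      rw [nsmul_eq_mul]
      apply mul_le_mul_of_nonneg_right _ (by positivity)
      have h1 : (Finset.range (Nat.log 2 n + 1)).filter (fun i => ¬ i ≤ J) ⊆
          Finset.Icc (J + 1) (Nat.log 2 n) := by
        intro i hi
        rw [Finset.mem_filter, Finset.mem_range] at hi
        rw [Finset.mem_Icc]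
        omega
      have h3 := Finset.card_le_card h1
      rw [Nat.card_Icc] at h3
      have h4 : #((Finset.range (Nat.log 2 n + 1)).filter (fun i => ¬ i ≤ J)) ≤ N + 2 := by omega
      exact_mod_cast h4
    have hsum : ∑ i ∈ Finset.range (Nat.log 2 n + 1),
        ((i : ℝ) + 1) * 2 ^ i * extremalNumber (n / 2 ^ i + 1) F ≤
        (8 * S + (N + 2) * (2 * N ^ 3 * (N + 3) * S)) * extremalNumber n F := by
      rw [← Finset.sum_filter_add_sum_filter_not (Finset.range (Nat.log 2 n + 1))
        (fun i => i ≤ J)]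
      linarith
    calc (maxRunTime H n : ℝ) ≤ _ := hC n
      _ ≤ C * ((8 * S + (N + 2) * (2 * N ^ 3 * (N + 3) * S)) * extremalNumber n F) :=
          mul_le_mul_of_nonneg_left hsum hC0
      _ = C * (8 * S + (N + 2) * (2 * N ^ 3 * (N + 3) * S)) * extremalNumber n F := by ring
      _ ≤ _ := mul_le_mul_of_nonneg_right (le_max_left _ _) hE

end Pool.Agent.Helper35.Boot
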