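import Pool.Agent.Helper35.Boot.Class
import Pool.Agent.Helper35.Boot.Turan3
import Pool.Agent.Helper35.Boot.Count

open Finset SimpleGraph

namespace Pool.Agent.Helper35.Boot

universe u v

variable {V : Type u} {W : Type v} [Fintype V] {H : SimpleGraph W} {G : SimpleGraph V}

open scoped Classical in
lemma card_VE_le (σ : ℕ) : #(VE H G σ) ≤ 2 * #(E H G σ) := by
  have hsub : VE H G σ ⊆ (E H G σ).biUnion (fun z => z.toFinset) := by
    intro x hx
    obtain ⟨z, hz, hxz⟩ := mem_VE.mp hx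
    rw [Finset.mem_biUnion]
    exact ⟨z, hz, by simpa using hxz⟩
  refine (Finset.card_le_card hsub).trans (Finset.card_biUnion_le.trans ?_)
  rw [mul_comm, ← smul_eq_mul]
  apply Finset.sum_le_card_nsmul
  intro z _
  rw [Sym2.card_toFinset]
  split_ifs <;> omega

/-- `z` is kept with colour `k` by the colouring `c`. -/
def Kept {K : Type*} (z : Sym2 V) (S : Finset V) (c : V → K) (k : K) : Prop :=
  (∀ x ∈ z, c x = k) ∧ ∀ x ∈ S, c x = k → x ∈ z

open scoped Classical in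
/-- the kept pairs are counted by the pairs `(σ, z)`. -/
lemma card_Y_ge {K : Type*} (T : Finset ℕ) (c : V → K) (k : K) :
    ∑ σ ∈ T, ∑ z ∈ E H G σ, (if Kept z (VW H G σ) c k then (1 : ℝ) else 0) ≤
      #(Y H G T c k) := by
  have h1 : ∀ σ ∈ T, ∑ z ∈ E H G σ, (if Kept z (VW H G σ) c k
      then (1 : ℝ) else 0) = (#((E H G σ).filter (fun z => Kept z (VW H G σ) c k)) : ℝ) := by
    intro σ _
    rw [Finset.sum_boole]
  rw [Finset.sum_congr rfl h1]
  have h2 : T.biUnion (fun σ => (E H G σ).filter (fun z => Kept z (VW H G σ) c k)) ⊆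
      Y H G T c k := by
    intro z hz
    rw [Finset.mem_biUnion] at hz
    obtain ⟨σ, hσ, hz⟩ := hz
    rw [Finset.mem_filter] at hz
    exact mem_Y.mpr ⟨σ, hσ, hz.1, hz.2.1, hz.2.2⟩
  have h3 := Finset.card_le_card h2
  rw [Finset.card_biUnion] at h3
  · exact_mod_cast h3
  · intro σ _ τ _ hne
    rw [Function.onFun, Finset.disjoint_left]
    intro z hz hz'
    exact hne (E_disjoint (Finset.mem_filter.mp hz).1 (Finset.mem_filter.mp hz').1)

open scoped Classical in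
lemma sum_swap {K : Type*} [Fintype K] (T : Finset ℕ) :
    ∑ c : V → K, ∑ k : K, ∑ σ ∈ T, ∑ z ∈ E H G σ,
        (if Kept z (VW H G σ) c k then (1 : ℝ) else 0) =
      ∑ σ ∈ T, ∑ z ∈ E H G σ, ∑ k : K, (#{c : V → K | Kept z (VW H G σ) c k} : ℝ) := by
  have h5 : ∀ c : V → K, ∑ k : K, ∑ σ ∈ T, ∑ z ∈ E H G σ,
      (if Kept z (VW H G σ) c k then (1 : ℝ) else 0) =
      ∑ σ ∈ T, ∑ z ∈ E H G σ, ∑ k : K,
      (if Kept z (VW H G σ) c k then (1 : ℝ) else 0) := by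
    intro c
    rw [Finset.sum_comm]
    apply Finset.sum_congr rfl
    intro σ _
    rw [Finset.sum_comm]
  simp_rw [h5]
  rw [Finset.sum_comm]
  apply Finset.sum_congr rfl
  intro σ _
  rw [Finset.sum_comm]
  apply Finset.sum_congr rfl
  intro z _
  rw [Finset.sum_comm]
  apply Finset.sum_congr rfl
  intro k _
  rw [Finset.sum_boole]

open scoped Classical in
lemma card_kept {K : Type*} [Fintype K] (z : Sym2 V) (hz : ¬ z.IsDiag) (S : Finset V) (k : K)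
    (hS : 2 * #S ≤ Fintype.card K) :
    (Fintype.card K : ℝ) ^ Fintype.card V * (1 / (Fintype.card K : ℝ)) ^ 2 / 2 ≤
      (#{c : V → K | Kept z S c k} : ℝ) := by
  convert! card_good z hz S k hS

open scoped Classical in
/-- the lower bound for the total number of kept pairs. -/
lemma kept_lower (T : Finset ℕ) (i : ℕ)
    (hw : ∀ σ ∈ T, 2 ^ i ≤ #(VE H G σ)) (hW : ∀ σ ∈ T, #(VW H G σ) ≤ 10 * 2 ^ i)
    (K : Type) [Fintype K] (hcK : Fintype.card K = 20 * 2 ^ i) :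
    (#T : ℝ) * ((Fintype.card K : ℝ) ^ Fintype.card V / 80) ≤
      ∑ c : V → K, ∑ k : K, (#(Y H G T c k) : ℝ) := by
  set n := Fintype.card V with hn
  set κ : ℝ := (Fintype.card K : ℝ) with hκ
  have hκ' : κ = 20 * 2 ^ i := by rw [hκ, hcK]; push_cast; ring
  have hκpos : 0 < κ := by rw [hκ']; positivity
  have h3 : ∑ c : V → K, ∑ k : K, ∑ σ ∈ T, ∑ z ∈ E H G σ,
      (if Kept z (VW H G σ) c k then (1 : ℝ) else 0) ≤
      ∑ c : V → K, ∑ k : K, (#(Y H G T c k) : ℝ) :=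
    Finset.sum_le_sum (fun c _ => Finset.sum_le_sum (fun k _ => card_Y_ge T c k))
  refine le_trans ?_ h3
  rw [sum_swap]
  have h6 : ∀ σ ∈ T, κ ^ n / 80 ≤ ∑ z ∈ E H G σ, ∑ k : K,
        (#{c : V → K | Kept z (VW H G σ) c k} : ℝ) := by
    intro σ hσ
    have h7 : ∀ z ∈ E H G σ, κ * (κ ^ n * (1 / κ) ^ 2 / 2) ≤ ∑ k : K,
        (#{c : V → K | Kept z (VW H G σ) c k} : ℝ) := by
      intro z hz
      have h8 : ∑ _k : K, (κ ^ n * (1 / κ) ^ 2 / 2) = κ * (κ ^ n * (1 / κ) ^ 2 / 2) := by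
        rw [Finset.sum_const, Finset.card_univ, nsmul_eq_mul]
      rw [← h8]
      apply Finset.sum_le_sum
      intro k _
      have h9 : 2 * #(VW H G σ) ≤ Fintype.card K := by
        rw [hcK]
        have := hW σ hσ
        omega
      exact card_kept z (not_isDiag_of_mem_E hz) (VW H G σ) k h9
    have h8 := Finset.card_nsmul_le_sum _ _ _ h7
    refine le_trans ?_ h8
    rw [nsmul_eq_mul]
    have h9 : (2 : ℝ) ^ i ≤ 2 * #(E H G σ) := by
      have := (hw σ hσ).trans (card_VE_le σ)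
      exact_mod_cast this
    have h10 : κ * (κ ^ n * (1 / κ) ^ 2 / 2) = κ ^ n / (40 * 2 ^ i) := by
      rw [hκ']
      field_simp
      ring
    rw [h10]
    have h11 : κ ^ n / 80 = (2 ^ i / 2) * (κ ^ n / (40 * 2 ^ i)) := by
      field_simp
      ring
    rw [h11]
    apply mul_le_mul_of_nonneg_right _ (by positivity)
    linarith
  have h7 := Finset.card_nsmul_le_sum _ _ _ h6
  rw [nsmul_eq_mul] at h7
  exact h7

open scoped Classical in
/-- the upper bound for the total number of kept pairs. -/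
lemma kept_upper [Fintype W] (e : Sym2 W) (he : e ∈ H.edgeSet)
    (h2 : ∃ g₁ ∈ (H.deleteEdges {e}).edgeSet, ∃ g₂ ∈ (H.deleteEdges {e}).edgeSet, g₁ ≠ g₂)
    (T : Finset ℕ) (hT : ∀ σ ∈ T, ∀ τ ∈ T, σ < τ → σ + 2 ≤ τ) (i : ℕ)
    (hi : 2 ^ i ≤ Fintype.card V) (K : Type) [Fintype K]
    (hcK : Fintype.card K = 20 * 2 ^ i) :
    ∑ c : V → K, ∑ k : K, (#(Y H G T c k) : ℝ) ≤
      (Fintype.card K : ℝ) ^ Fintype.card V *
        ((20 * ((Fintype.card W : ℝ) ^ 2 + 1) + 2) * 2 ^ i *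
        extremalNumber (Fintype.card V / 2 ^ i + 1) (H.deleteEdges {e})) := by
  set F := H.deleteEdges {e} with hF
  set n := Fintype.card V with hn
  set l := n / 2 ^ i + 1 with hl
  set B : ℝ := (Fintype.card W : ℝ) ^ 2 + 1 with hB
  have hl2 : 2 ≤ l := by
    have : 1 ≤ n / 2 ^ i := (Nat.one_le_div_iff (by positivity)).mpr hi
    omega
  have hl2' : (2 : ℝ) ≤ l := by exact_mod_cast hl2
  have hnl : (n : ℝ) ≤ 2 ^ i * l := by
    have h1 : n < 2 ^ i * l := by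
      rw [hl]
      exact Nat.lt_mul_div_succ n (by positivity)
    exact_mod_cast h1.le
  have hE : (0 : ℝ) ≤ extremalNumber l F := Nat.cast_nonneg _
  set κ : ℝ := (Fintype.card K : ℝ) with hκ
  have hκ' : κ = 20 * 2 ^ i := by rw [hκ, hcK]; push_cast; ring
  have hκpos : 0 < κ := by rw [hκ']; positivity
  have h3 : ∀ (c : V → K) (k : K), (#(Y H G T c k) : ℝ) ≤
      (B + 2 / (l : ℝ) ^ 2 * (#{x : V | c x = k} : ℝ) ^ 2) * extremalNumber l F := by
    intro c k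
    have h4 : (#(Y H G T c k) : ℝ) ≤ extremalNumber #{x : V | c x = k} F := by
      exact_mod_cast card_Y_le e he h2 T hT c k
    have h5 := ex_compare h2 hl2 #{x : V | c x = k}
    refine h4.trans (h5.trans (le_of_eq ?_))
    rw [hB]
    field_simp
  refine (Finset.sum_le_sum (fun c _ => Finset.sum_le_sum (fun k _ => h3 c k))).trans ?_
  simp_rw [← Finset.sum_mul]
  have h4 : ∑ c : V → K, ∑ k : K, (B + 2 / (l : ℝ) ^ 2 * (#{x : V | c x = k} : ℝ) ^ 2) =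
      κ ^ n * κ * B + 2 / (l : ℝ) ^ 2 * ∑ c : V → K, ∑ k : K, (#{x : V | c x = k} : ℝ) ^ 2 := by
    simp_rw [Finset.sum_add_distrib, ← Finset.mul_sum]
    congr 1
    rw [Finset.sum_const, Finset.sum_const, Finset.card_univ, Finset.card_univ,
      Fintype.card_fun, nsmul_eq_mul, nsmul_eq_mul]
    push_cast
    ring
  rw [h4]
  have h5 := sum_sq (V := V) (K := K)
  have h6 : 2 / (l : ℝ) ^ 2 * ∑ c : V → K, ∑ k : K, (#{x : V | c x = k} : ℝ) ^ 2 ≤
      2 / (l : ℝ) ^ 2 * (κ ^ n * (n + (n : ℝ) ^ 2 / κ)) :=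
    mul_le_mul_of_nonneg_left h5 (by positivity)
  have h7 : 2 / (l : ℝ) ^ 2 * (n + (n : ℝ) ^ 2 / κ) ≤ 2 * 2 ^ i := by
    have hlpos : (0 : ℝ) < l := by linarith
    have hn0 : (0 : ℝ) ≤ n := Nat.cast_nonneg _
    rw [div_mul_eq_mul_div, div_le_iff₀ (by positivity), hκ']
    have h8 : (n : ℝ) ^ 2 / (20 * 2 ^ i) ≤ 2 ^ i * (l : ℝ) ^ 2 / 20 := by
      rw [div_le_div_iff₀ (by positivity) (by norm_num)]
      have h9 : (n : ℝ) ^ 2 ≤ (2 ^ i * l) ^ 2 := pow_le_pow_left₀ hn0 hnl 2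
      nlinarith
    have h10 : 2 * (n : ℝ) ≤ 2 ^ i * (l : ℝ) ^ 2 := by
      have : (2 : ℝ) ^ i * l * 2 ≤ 2 ^ i * l * l :=
        mul_le_mul_of_nonneg_left hl2' (by positivity)
      nlinarith
    have h11 : 0 ≤ 2 ^ i * (l : ℝ) ^ 2 := by positivity
    nlinarith
  have h8 : κ ^ n * κ * B + 2 / (l : ℝ) ^ 2 *
      ∑ c : V → K, ∑ k : K, (#{x : V | c x = k} : ℝ) ^ 2 ≤
      κ ^ n * ((20 * B + 2) * 2 ^ i) := by
    calc κ ^ n * κ * B + 2 / (l : ℝ) ^ 2 *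
          ∑ c : V → K, ∑ k : K, (#{x : V | c x = k} : ℝ) ^ 2
        ≤ κ ^ n * κ * B + 2 / (l : ℝ) ^ 2 * (κ ^ n * (n + (n : ℝ) ^ 2 / κ)) := by linarith
      _ = κ ^ n * (κ * B + 2 / (l : ℝ) ^ 2 * (n + (n : ℝ) ^ 2 / κ)) := by ring
      _ ≤ κ ^ n * (κ * B + 2 * 2 ^ i) := by
          apply mul_le_mul_of_nonneg_left _ (by positivity)
          linarith
      _ = κ ^ n * ((20 * B + 2) * 2 ^ i) := by rw [hκ']; ring
  calc _ ≤ κ ^ n * ((20 * B + 2) * 2 ^ i) * extremalNumber l F :=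
        mul_le_mul_of_nonneg_right h8 hE
    _ = _ := by ring

lemma scale_bound [Fintype W] (e : Sym2 W) (he : e ∈ H.edgeSet)
    (h2 : ∃ g₁ ∈ (H.deleteEdges {e}).edgeSet, ∃ g₂ ∈ (H.deleteEdges {e}).edgeSet, g₁ ≠ g₂)
    (T : Finset ℕ) (hT : ∀ σ ∈ T, ∀ τ ∈ T, σ < τ → σ + 2 ≤ τ) (i : ℕ)
    (hi : 2 ^ i ≤ Fintype.card V)
    (hw : ∀ σ ∈ T, 2 ^ i ≤ #(VE H G σ)) (hW : ∀ σ ∈ T, #(VW H G σ) ≤ 10 * 2 ^ i) :
    (#T : ℝ) ≤ (80 * (20 * ((Fintype.card W : ℝ) ^ 2 + 1) + 2)) * 2 ^ i *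
      extremalNumber (Fintype.card V / 2 ^ i + 1) (H.deleteEdges {e}) := by
  have hcK : Fintype.card (Fin (20 * 2 ^ i)) = 20 * 2 ^ i := Fintype.card_fin _
  have h3 := kept_lower T i hw hW (Fin (20 * 2 ^ i)) hcK
  have h4 := kept_upper (G := G) e he h2 T hT i hi (Fin (20 * 2 ^ i)) hcK
  have hfin := h3.trans h4
  have hκn : (0 : ℝ) < (Fintype.card (Fin (20 * 2 ^ i)) : ℝ) ^ Fintype.card V := by
    rw [hcK]
    push_cast
    positivity
  have h5 : (Fintype.card (Fin (20 * 2 ^ i)) : ℝ) ^ Fintype.card V * (#T : ℝ) ≤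
      (Fintype.card (Fin (20 * 2 ^ i)) : ℝ) ^ Fintype.card V *
        ((80 * (20 * ((Fintype.card W : ℝ) ^ 2 + 1) + 2)) * 2 ^ i *
      extremalNumber (Fintype.card V / 2 ^ i + 1) (H.deleteEdges {e})) := by nlinarith
  exact le_of_mul_le_mul_left h5 hκn

end Pool.Agent.Helper35.Boot
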