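import Pool.Agent.Helper35.Boot.Defs

open Finset SimpleGraph

namespace Pool.Agent.Helper35.Boot

universe u v

variable {V : Type u} {W : Type v}

lemma le_step [Fintype V] (H : SimpleGraph W) (G : SimpleGraph V) : G ≤ step H G :=
  fun _ _ h => Or.inl h

/-- adding an edge which completes a copy of `H` increases the number of copies. -/
lemma copyCount_lt [Fintype V] (H : SimpleGraph W) (G : SimpleGraph V) (φ : W → V)
    (hφ : Function.Injective φ) {x y : W} (hxy : H.Adj x y)
    (hH : ∀ a b, H.Adj a b → s(a, b) ≠ s(x, y) → G.Adj (φ a) (φ b))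
    (hn : ¬ G.Adj (φ x) (φ y)) :
    G.copyCount H < (G ⊔ SimpleGraph.edge (φ x) (φ y)).copyCount H := by
  classical
  set G' := G ⊔ SimpleGraph.edge (φ x) (φ y) with hG'
  have hne : φ x ≠ φ y := fun h => hxy.ne (hφ h)
  have hle : G ≤ G' := le_sup_left
  let F : H →g G' := ⟨φ, by
    intro a b hab
    by_cases h : s(a, b) = s(x, y)
    · rw [hG', SimpleGraph.sup_adj]
      right
      rw [SimpleGraph.edge_adj]
      refine ⟨?_, fun h' => hab.ne (hφ h')⟩
      rw [Sym2.eq_iff] at h
      rcases h with ⟨rfl, rfl⟩ | ⟨rfl, rfl⟩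
      · exact Or.inl ⟨rfl, rfl⟩
      · exact Or.inr ⟨rfl, rfl⟩
    · exact hle (hH a b hab h)⟩
  let c : Copy H G' := ⟨F, hφ⟩
  let ι : Copy G G' := Copy.ofLE G G' hle
  rw [SimpleGraph.copyCount, SimpleGraph.copyCount]
  refine lt_of_le_of_lt (b := #(Finset.image (fun S : G.Subgraph => S.map ι.toHom)
    (Finset.univ.filter (fun S : G.Subgraph => Nonempty (H ≃g S.coe))))) ?_ ?_
  · rw [Finset.card_image_of_injOn]
    intro S _ T _ hST
    have hv : S.verts = T.verts := by
      have := congrArg Subgraph.verts hST
      simpa [ι, Copy.ofLE] using this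
    ext a b
    · rw [hv]
    · have h1 := congrArg (fun S : G'.Subgraph => S.Adj a b) hST
      simpa [ι, Copy.ofLE, Relation.Map] using h1
  · apply Finset.card_lt_card
    rw [Finset.ssubset_iff_of_subset]
    · refine ⟨c.toSubgraph, ?_, ?_⟩
      · simp only [Finset.mem_filter, Finset.mem_univ, true_and]
        exact ⟨c.isoToSubgraph⟩
      · intro hc
        rw [Finset.mem_image] at hc
        obtain ⟨S, -, hS⟩ := hc
        have h1 : (c.toSubgraph).Adj (φ x) (φ y) := by
          simp only [Copy.toSubgraph, Subgraph.map_adj, Relation.Map]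
          exact ⟨x, y, by simpa using hxy, rfl, rfl⟩
        rw [← hS] at h1
        simp only [Subgraph.map_adj, Relation.Map] at h1
        obtain ⟨a, b, hab, ha, hb⟩ := h1
        apply hn
        have ha' : a = φ x := ha
        have hb' : b = φ y := hb
        rw [← ha', ← hb']
        exact S.adj_sub hab
    · intro S hS
      rw [Finset.mem_image] at hS
      obtain ⟨T, hT, rfl⟩ := hS
      simp only [Finset.mem_filter, Finset.mem_univ, true_and] at hT ⊢
      obtain ⟨f⟩ := hT
      exact ⟨(ι.isoSubgraphMap T).comp f⟩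

/-- The completing property of one step. -/
lemma step_adj [Fintype V] (H : SimpleGraph W) (G : SimpleGraph V) (φ : W → V)
    (hφ : Function.Injective φ) {x y : W} (hxy : H.Adj x y)
    (hH : ∀ a b, H.Adj a b → s(a, b) ≠ s(x, y) → G.Adj (φ a) (φ b)) :
    (step H G).Adj (φ x) (φ y) := by
  by_cases hn : G.Adj (φ x) (φ y)
  · exact Or.inl hn
  · exact Or.inr ⟨fun h => hxy.ne (hφ h), copyCount_lt H G φ hφ hxy hH hn⟩

lemma proc_mono [Fintype V] (H : SimpleGraph W) (G : SimpleGraph V) : Monotone (proc H G) :=
  monotone_nat_of_le_succ fun _ => le_step H _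

lemma proc_stable [Fintype V] (H : SimpleGraph W) (G : SimpleGraph V) {t : ℕ}
    (h : proc H G t = proc H G (t + 1)) (s : ℕ) (hs : t ≤ s) : proc H G s = proc H G t := by
  induction s, hs using Nat.le_induction with
  | base => rfl
  | succ s hs ih =>
    change step H (proc H G s) = _
    rw [ih]
    exact h.symm

/-- The process stabilises, so the set defining `runTime` is nonempty. -/
lemma exists_stable [Fintype V] (H : SimpleGraph W) (G : SimpleGraph V) :
    ∃ t, proc H G t = proc H G (t + 1) := by
  classical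
  by_contra hcon
  push Not at hcon
  have hlt : StrictMono (proc H G) :=
    strictMono_nat_of_lt_succ fun t => lt_of_le_of_ne (le_step H _) (hcon t)
  exact not_injective_infinite_finite (proc H G) hlt.injective

lemma runTime_spec [Fintype V] (H : SimpleGraph W) (G : SimpleGraph V) :
    proc H G (runTime H G) = proc H G (runTime H G + 1) :=
  Nat.sInf_mem (s := {t : ℕ | proc H G t = proc H G (t + 1)}) (exists_stable H G)

lemma proc_ne_of_lt [Fintype V] (H : SimpleGraph W) (G : SimpleGraph V) {t : ℕ}
    (h : t < runTime H G) : proc H G t ≠ proc H G (t + 1) :=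
  fun h' => Nat.notMem_of_lt_sInf h h'

end Pool.Agent.Helper35.Boot
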