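import Pool.Agent.Helper35.Boot.Step

open Finset SimpleGraph

namespace Pool.Agent.Helper35.Boot

universe u v

variable {V : Type u} {W : Type v}

open scoped Classical in
/-- the pairs which get infected exactly at time `σ ≥ 1` (`E 0 = ∅`). -/
noncomputable def E [Fintype V] (H : SimpleGraph W) (G : SimpleGraph V) (σ : ℕ) :
    Finset (Sym2 V) :=
  Finset.univ.filter (fun z => z ∈ (proc H G σ).edgeSet ∧ z ∉ (proc H G (σ - 1)).edgeSet)

open scoped Classical in
/-- the vertices covered by the pairs infected at time `σ`. -/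
noncomputable def VE [Fintype V] (H : SimpleGraph W) (G : SimpleGraph V) (σ : ℕ) : Finset V :=
  Finset.univ.filter (fun x => ∃ z ∈ E H G σ, x ∈ z)

open scoped Classical in
/-- the vertices covered by the pairs infected at times `σ - 1`, `σ`, `σ + 1`. -/
noncomputable def VW [Fintype V] (H : SimpleGraph W) (G : SimpleGraph V) (σ : ℕ) : Finset V :=
  VE H G (σ - 1) ∪ VE H G σ ∪ VE H G (σ + 1)

variable [Fintype V] {H : SimpleGraph W} {G : SimpleGraph V}

lemma mem_E {σ : ℕ} {z : Sym2 V} :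
    z ∈ E H G σ ↔ z ∈ (proc H G σ).edgeSet ∧ z ∉ (proc H G (σ - 1)).edgeSet := by
  simp [E]

lemma mem_VE {σ : ℕ} {x : V} : x ∈ VE H G σ ↔ ∃ z ∈ E H G σ, x ∈ z := by
  simp [VE]

lemma mem_VW {σ : ℕ} {x : V} :
    x ∈ VW H G σ ↔ x ∈ VE H G (σ - 1) ∨ x ∈ VE H G σ ∨ x ∈ VE H G (σ + 1) := by
  simp [VW, or_assoc]

lemma E_zero : E H G 0 = ∅ := by
  ext z
  simp [mem_E]

lemma E_eq_empty {σ : ℕ} (h : runTime H G < σ) : E H G σ = ∅ := by
  ext z
  simp only [mem_E, Finset.notMem_empty, iff_false, not_and, not_not]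
  intro hz
  have h1 := proc_stable H G (runTime_spec H G) σ h.le
  have h2 := proc_stable H G (runTime_spec H G) (σ - 1) (by omega)
  rw [h2, ← h1]
  exact hz

lemma E_nonempty {σ : ℕ} (h1 : 1 ≤ σ) (h2 : σ ≤ runTime H G) : (E H G σ).Nonempty := by
  by_contra hcon
  rw [Finset.not_nonempty_iff_eq_empty] at hcon
  obtain ⟨t, rfl⟩ : ∃ t, σ = t + 1 := ⟨σ - 1, by omega⟩
  apply proc_ne_of_lt H G (t := t) (by omega)
  apply le_antisymm (proc_mono H G (Nat.le_succ t))
  rw [← SimpleGraph.edgeSet_subset_edgeSet]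
  intro z hz
  by_contra hz2
  have : z ∈ E H G (t + 1) := mem_E.mpr ⟨hz, by simpa using hz2⟩
  rw [hcon] at this
  exact Finset.notMem_empty _ this

lemma edgeSet_mono' {s t : ℕ} (h : s ≤ t) : (proc H G s).edgeSet ⊆ (proc H G t).edgeSet :=
  SimpleGraph.edgeSet_subset_edgeSet.mpr (proc_mono H G h)

lemma E_disjoint {σ τ : ℕ} {z : Sym2 V} (h1 : z ∈ E H G σ) (h2 : z ∈ E H G τ) : σ = τ := by
  rw [mem_E] at h1 h2
  rcases lt_trichotomy σ τ with h | h | h
  · exact absurd (edgeSet_mono' (by omega) h1.1) h2.2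
  · exact h
  · exact absurd (edgeSet_mono' (by omega) h2.1) h1.2

lemma one_le_of_mem_E {σ : ℕ} {z : Sym2 V} (h1 : z ∈ E H G σ) : 1 ≤ σ := by
  by_contra h
  have : σ = 0 := by omega
  subst this
  rw [E_zero] at h1
  exact Finset.notMem_empty _ h1

lemma not_isDiag_of_mem_E {σ : ℕ} {z : Sym2 V} (h1 : z ∈ E H G σ) : ¬ z.IsDiag :=
  (proc H G σ).not_isDiag_of_mem_edgeSet (mem_E.mp h1).1

/-- A copy of `F = H - e` whose last edge is infected at time `σ` and all whose other edges are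
infected at time at most `σ - 2`: the missing pair is infected at time `σ - 1`, `σ` or `σ + 1`. -/
lemma missing_pair (φ : W → V) (hφ : Function.Injective φ) {x y a b : W} (hxy : H.Adj x y)
    (hab : H.Adj a b) (hne : s(a, b) ≠ s(x, y)) {σ : ℕ} (hσ : 2 ≤ σ)
    (hz : s(φ a, φ b) ∈ E H G σ)
    (hH : ∀ p q, H.Adj p q → s(p, q) ≠ s(x, y) → s(p, q) ≠ s(a, b) →
      (proc H G (σ - 2)).Adj (φ p) (φ q)) :
    s(φ x, φ y) ∈ E H G (σ - 1) ∨ s(φ x, φ y) ∈ E H G σ ∨ s(φ x, φ y) ∈ E H G (σ + 1) := by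
  obtain ⟨t, rfl⟩ : ∃ t, σ = t + 2 := ⟨σ - 2, by omega⟩
  simp only [Nat.add_sub_cancel] at hH
  have hz' := mem_E.mp hz
  -- the missing pair is infected at time `t + 3`
  have h1 : (proc H G (t + 3)).Adj (φ x) (φ y) := by
    apply step_adj H (proc H G (t + 2)) φ hφ hxy
    intro p q hpq hpe
    by_cases hpa : s(p, q) = s(a, b)
    · have h2 : s(φ p, φ q) = s(φ a, φ b) := by
        rw [Sym2.eq_iff] at hpa ⊢
        rcases hpa with ⟨rfl, rfl⟩ | ⟨rfl, rfl⟩
        · exact Or.inl ⟨rfl, rfl⟩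
        · exact Or.inr ⟨rfl, rfl⟩
      have h3 := hz'.1
      rw [← h2] at h3
      exact h3
    · exact proc_mono H G (by omega) (hH p q hpq hpe hpa)
  -- the missing pair is not infected at time `t`
  have h0 : ¬ (proc H G t).Adj (φ x) (φ y) := by
    intro hcon
    apply hz'.2
    simp only [Nat.add_sub_cancel, Nat.add_one_sub_one]
    change (proc H G (t + 1)).Adj (φ a) (φ b)
    apply step_adj H (proc H G t) φ hφ hab
    intro p q hpq hpa
    by_cases hpe : s(p, q) = s(x, y)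
    · rw [Sym2.eq_iff] at hpe
      rcases hpe with ⟨rfl, rfl⟩ | ⟨rfl, rfl⟩
      · exact hcon
      · exact hcon.symm
    · exact hH p q hpq hpe hpa
  by_cases h2 : (proc H G (t + 1)).Adj (φ x) (φ y)
  · left
    rw [mem_E]
    exact ⟨h2, h0⟩
  · right
    by_cases h3 : (proc H G (t + 2)).Adj (φ x) (φ y)
    · left
      rw [mem_E]
      exact ⟨h3, h2⟩
    · right
      rw [mem_E]
      exact ⟨h1, h3⟩

end Pool.Agent.Helper35.Boot
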