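import Pool.Agent.Helper35.Boot.Turan

open Finset SimpleGraph

namespace Pool.Agent.Helper35.Boot

universe v

open scoped Classical in
/-- removing a set `T` of vertices removes at most `|T| m` edges. -/
lemma card_edges_le_induce {m : ℕ} (G : SimpleGraph (Fin m)) (T : Finset (Fin m)) :
    #G.edgeFinset ≤ #(G.induce ((T : Set (Fin m))ᶜ)).edgeFinset + #T * m := by
  have hsub : G.edgeFinset ⊆
      (G.edgeFinset ∩ ((T : Set (Fin m))ᶜ).toFinset.sym2) ∪ T.biUnion (fun t => G.incidenceFinset t) := by
    intro z hz
    rw [Finset.mem_union]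
    by_cases h : ∀ x ∈ z, x ∉ T
    · left
      rw [Finset.mem_inter, Finset.mem_sym2_iff]
      refine ⟨hz, fun x hx => ?_⟩
      simpa using h x hx
    · push Not at h
      obtain ⟨t, ht, htT⟩ := h
      right
      rw [Finset.mem_biUnion]
      refine ⟨t, htT, ?_⟩
      rw [SimpleGraph.mem_incidenceFinset, SimpleGraph.incidenceSet]
      exact ⟨by simpa using hz, ht⟩
  refine (Finset.card_le_card hsub).trans ((Finset.card_union_le _ _).trans ?_)
  apply Nat.add_le_add
  · rw [← SimpleGraph.map_edgeFinset_induce, Finset.card_map]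
  · refine (Finset.card_biUnion_le).trans ?_
    rw [← smul_eq_mul]
    apply Finset.sum_le_card_nsmul
    intro t _
    rw [SimpleGraph.card_incidenceFinset_eq_degree]
    have := G.degree_lt_card_verts t
    rw [Fintype.card_fin] at this
    exact this.le

lemma ex_mul_le_aux : ∀ (d : ℕ) (W : Type v) [Fintype W] (F : SimpleGraph W),
    Fintype.card W = d → ∃ C : ℕ, ∀ k m N : ℕ, k * m ≤ N →
      k * extremalNumber m F ≤ C * (extremalNumber N F + N) := by
  classical
  intro d
  induction d using Nat.strong_induction_on with
  | _ d ih =>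
  intro W _ F hd
  by_cases hF : F.Preconnected
  · refine ⟨1, fun k m N h => ?_⟩
    have := ex_super_mul hF k m N h
    omega
  · rw [SimpleGraph.Preconnected] at hF
    push Not at hF
    obtain ⟨x, y, hxy⟩ := hF
    set S : Set W := {w | F.Reachable x w} with hS
    have hxS : x ∈ S := SimpleGraph.Reachable.refl x
    have hyS : y ∉ S := hxy
    have hclosed : ∀ a b, F.Adj a b → (a ∈ S ↔ b ∈ S) := by
      intro a b hab
      exact ⟨fun h => SimpleGraph.Reachable.trans h hab.reachable,
        fun h => SimpleGraph.Reachable.trans h hab.symm.reachable⟩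
    have hc1 : Fintype.card S < d := by
      rw [← hd]
      exact Fintype.card_subtype_lt (p := fun w => w ∈ S) hyS
    have hc2 : Fintype.card ↥(Sᶜ) < d := by
      rw [← hd]
      exact Fintype.card_subtype_lt (p := fun w => w ∈ Sᶜ) (x := x) (fun h => h hxS)
    obtain ⟨C₁, hC₁⟩ := ih _ hc1 S (F.induce S) rfl
    obtain ⟨C₂, hC₂⟩ := ih _ hc2 ↥(Sᶜ) (F.induce Sᶜ) rfl
    refine ⟨C₁ + C₂ + d, fun k m N h => ?_⟩
    have hle1 : extremalNumber N (F.induce S) ≤ extremalNumber N F :=
      IsContained.extremalNumber_le ⟨Copy.induce F S⟩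
    have hle2 : extremalNumber N (F.induce Sᶜ) ≤ extremalNumber N F :=
      IsContained.extremalNumber_le ⟨Copy.induce F Sᶜ⟩
    rcases Nat.eq_zero_or_pos (extremalNumber m F) with h0 | h0
    · rw [h0]; simp
    obtain ⟨G, hG, hcard⟩ := exists_extremal h0
    have hcard : #G.edgeFinset = extremalNumber m F := by convert! hcard
    by_cases hG1 : (F.induce S).Free G
    · have h1 := le_ex G hG1
      have h1 : extremalNumber m F ≤ extremalNumber m (F.induce S) := by
        rw [← hcard]
        convert! h1
      calc k * extremalNumber m F ≤ k * extremalNumber m (F.induce S) :=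
            Nat.mul_le_mul_left k h1
        _ ≤ C₁ * (extremalNumber N (F.induce S) + N) := hC₁ k m N h
        _ ≤ C₁ * (extremalNumber N F + N) := Nat.mul_le_mul_left _ (by omega)
        _ ≤ (C₁ + C₂ + d) * (extremalNumber N F + N) := Nat.mul_le_mul_right _ (by omega)
    · rw [not_free] at hG1
      obtain ⟨f₁⟩ := hG1
      set T : Finset (Fin m) := Finset.univ.filter (fun v => ∃ w, f₁ w = v) with hT
      have hTcard : #T ≤ d := by
        have : T ⊆ Finset.image f₁ Finset.univ := by
          intro v hv
          simp only [hT, Finset.mem_filter, Finset.mem_univ, true_and] at hv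
          obtain ⟨w, hw⟩ := hv
          exact Finset.mem_image.mpr ⟨w, Finset.mem_univ w, hw⟩
        have h2 := (Finset.card_le_card this).trans Finset.card_image_le
        rw [Finset.card_univ] at h2
        omega
      have hfree2 : (F.induce Sᶜ).Free (G.induce ((T : Set (Fin m))ᶜ)) := by
        rintro ⟨f₂⟩
        apply hG
        refine ⟨⟨⟨fun w => if hw : w ∈ S then f₁ ⟨w, hw⟩ else (f₂ ⟨w, hw⟩).1, ?_⟩, ?_⟩⟩
        · intro a b hab
          by_cases ha : a ∈ S
          · have hb : b ∈ S := (hclosed a b hab).mp ha
            simp only [ha, hb, dif_pos]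
            exact f₁.toHom.map_adj (show (F.induce S).Adj ⟨a, ha⟩ ⟨b, hb⟩ from hab)
          · have hb : b ∉ S := fun h => ha ((hclosed a b hab).mpr h)
            simp only [ha, hb, dif_neg, not_false_iff]
            have := f₂.toHom.map_adj (show (F.induce Sᶜ).Adj ⟨a, ha⟩ ⟨b, hb⟩ from hab)
            exact this
        · intro a b hab
          have hab' : (if hw : a ∈ S then f₁ ⟨a, hw⟩ else (f₂ ⟨a, hw⟩).1) =
            (if hw : b ∈ S then f₁ ⟨b, hw⟩ else (f₂ ⟨b, hw⟩).1) := hab
          by_cases ha : a ∈ S
          · by_cases hb : b ∈ S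
            · simp only [ha, hb, dif_pos] at hab'
              have := f₁.injective hab'
              simpa using this
            · simp only [ha, hb, dif_pos, dif_neg, not_false_iff] at hab'
              exfalso
              apply (f₂ ⟨b, hb⟩).2
              rw [← hab', hT]
              simp only [Finset.coe_filter, Finset.mem_univ, true_and, Set.mem_ofPred_eq]
              exact ⟨⟨a, ha⟩, rfl⟩
          · by_cases hb : b ∈ S
            · simp only [ha, hb, dif_pos, dif_neg, not_false_iff] at hab'
              exfalso
              apply (f₂ ⟨a, ha⟩).2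
              rw [hab', hT]
              simp only [Finset.coe_filter, Finset.mem_univ, true_and, Set.mem_ofPred_eq]
              exact ⟨⟨b, hb⟩, rfl⟩
            · simp only [ha, hb, dif_neg, not_false_iff] at hab'
              have := f₂.injective (Subtype.val_injective hab')
              simpa using this
      have h1 := card_edgeFinset_le_extremalNumber hfree2
      set m' := Fintype.card ↥((T : Set (Fin m))ᶜ) with hm'
      have hm'le : m' ≤ m := by
        have := Fintype.card_subtype_le (fun v : Fin m => v ∈ ((T : Set (Fin m))ᶜ))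
        rw [Fintype.card_fin] at this
        exact this
      have h2 := card_edges_le_induce G T
      have h3 : extremalNumber m F ≤ extremalNumber m' (F.induce Sᶜ) + d * m := by
        rw [← hcard]
        have h4 : #T * m ≤ d * m := Nat.mul_le_mul_right _ hTcard
        have h5 : #(G.induce ((T : Set (Fin m))ᶜ)).edgeFinset ≤
          extremalNumber m' (F.induce Sᶜ) := by convert! h1
        have h6 : #G.edgeFinset ≤ #(G.induce ((T : Set (Fin m))ᶜ)).edgeFinset + #T * m := by
          convert! h2
        omega
      have h7 := hC₂ k m' N ((Nat.mul_le_mul_left k hm'le).trans h)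
      calc k * extremalNumber m F ≤ k * (extremalNumber m' (F.induce Sᶜ) + d * m) :=
            Nat.mul_le_mul_left k h3
        _ = k * extremalNumber m' (F.induce Sᶜ) + d * (k * m) := by ring
        _ ≤ C₂ * (extremalNumber N (F.induce Sᶜ) + N) + d * N :=
            Nat.add_le_add h7 (Nat.mul_le_mul_left _ h)
        _ ≤ C₂ * (extremalNumber N F + N) + d * (extremalNumber N F + N) :=
            Nat.add_le_add (Nat.mul_le_mul_left _ (by omega)) (Nat.mul_le_mul_left _ (by omega))
        _ = (C₂ + d) * (extremalNumber N F + N) := by ring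
        _ ≤ (C₁ + C₂ + d) * (extremalNumber N F + N) := Nat.mul_le_mul_right _ (by omega)

lemma ex_mul_le {W : Type v} [Fintype W] (F : SimpleGraph W) :
    ∃ C : ℕ, ∀ k m N : ℕ, k * m ≤ N →
      k * extremalNumber m F ≤ C * (extremalNumber N F + N) :=
  ex_mul_le_aux _ W F rfl

end Pool.Agent.Helper35.Boot
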